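import Mathlib

/-!
# Project TI: complete simplicial fans whose cones are spanned by the cliques of a graph
-/

open Finset

namespace Pool.Agent.Helper82.TI.Fan

variable {K V : Type} [Field K] [LinearOrder K] [IsStrictOrderedRing K] [Fintype V] {d : ℕ}

noncomputable instance instFct {G : SimpleGraph V} : Fintype {f : Finset V // G.IsNClique d f} := by
  classical exact inferInstance

/-- The linear combination of the vectors `p v` with coefficients `a v`. -/
def lc (p : V → Fin d → K) (a : V → K) : Fin d → K := fun j => ∑ v, a v * p v j

/-- The cones over the cliques of `G`, spanned by the vectors `p v`, form a complete simplicial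
fan: every vector is in exactly one way a combination of the `p v` with nonnegative coefficients
that are nonzero only on a clique. -/
def IsFan (G : SimpleGraph V) (p : V → Fin d → K) : Prop :=
  ∀ c : Fin d → K, ∃! a : V → K, (∀ v, 0 ≤ a v) ∧ G.IsClique {v | a v ≠ 0} ∧ lc p a = c

/-- The vector `c` is not a combination of the vectors of a clique with less than `d` elements. -/
def Gen (G : SimpleGraph V) (p : V → Fin d → K) (c : Fin d → K) : Prop :=
  ∀ σ : Finset V, G.IsClique (σ : Set V) → σ.card < d → ∀ a : V → K, (∀ v, v ∉ σ → a v = 0) →
    lc p a ≠ c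

open scoped Classical in
/-- The coordinates of `c` with respect to the vectors `p v`, `v ∈ f`. -/
noncomputable def co (p : V → Fin d → K) (f : Finset V) (c : Fin d → K) : V → K :=
  if h : ∃ a : V → K, (∀ v, v ∉ f → a v = 0) ∧ lc p a = c then h.choose else 0

/-- `rk` is a shelling of the complex of the cliques of `G` with `d` elements: the facets are
ordered by `rk`, and if `g` comes before `f` then some facet `h` before `f` contains all elements
of `f` but one, which is not in `g`. -/
structure IsShelling (G : SimpleGraph V) (d : ℕ) (rk : Finset V → ℕ) : Prop where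
  inj : ∀ f g : Finset V, G.IsNClique d f → G.IsNClique d g → rk f = rk g → f = g
  shell : ∀ f g : Finset V, G.IsNClique d f → G.IsNClique d g → rk g < rk f →
    ∃ v ∈ f, v ∉ g ∧ ∃ h : Finset V, G.IsNClique d h ∧ rk h < rk f ∧ ∀ u ∈ f, u ≠ v → u ∈ h

open scoped Classical in
/-- The restriction set of the facet `f`. -/
noncomputable def Rs (G : SimpleGraph V) (d : ℕ) (rk : Finset V → ℕ) (f : Finset V) : Finset V :=
  f.filter (fun v => ∃ h : Finset V, G.IsNClique d h ∧ rk h < rk f ∧ ∀ u ∈ f, u ≠ v → u ∈ h)

end Pool.Agent.Helper82.TI.Fan
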