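import Pool.Agent.Helper82.TI.Fan.Defs

/-!
# Project TI: germs of a complete simplicial fan

PROOFS. lc is linear in a. LIN: let a⁺ v = max (a v) 0, a⁻ v = max (-a v) 0; both are nonnegative,
nonzero only on σ (a subset of a clique is a clique), and lc a⁺ = lc a⁻ (lc a = 0); by uniqueness for
c = lc a⁺: a⁺ = a⁻, so a = 0. CARD_LE: the vectors p v, v ∈ σ, are linearly independent in
Fin d → K (by lin), so #σ ≤ d. GERM: for every t = 1/(m+1), m ∈ ℕ, take the representation a_t of
r + t u and a clique g_t = {v | a_t v ≠ 0} (a Finset by toFinset/filter, finitely many possibilities);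
by the infinite pigeonhole principle some g occurs for infinitely many t (Finite.exists_infinite_fiber
or Set.infinite...). Take two of them, s < t' : the coefficient vectors satisfy lc a_s = r + s u,
lc a_t' = r + t' u; put b = (a_t' - a_s)/(t' - s), a = a_s - s b: supported on g, lc b = u, lc a = r.
For every other t in the infinite set lc (a + t b) = r + t u = lc a_t, both supported on g, so
a + t b = a_t ≥ 0 (lin). For each v: a v + t b v ≥ 0 for arbitrarily small t > 0 (the infinite set of
the 1/(m+1) has arbitrarily small elements). So a v ≥ 0: otherwise a v + t b v < 0 as soon as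
t |b v| < -a v (K need not be archimedean! but a v is a fixed element; to avoid the problem replace
'1/(m+1)' by the following: the set P_g = {t ∈ K : 0 < t, r + t u ∈ cone g} is convex; finitely many
convex sets P_g cover (0, ∞); claim: some P_g contains an interval (0, ε]. Proof: otherwise for each g
choose t_g > 0 below all elements of P_g or in the complement: precisely, if P_g contains arbitrarily
small elements (∀ ε > 0 ∃ t ∈ P_g, t < ε) then by convexity P_g ⊇ (0, t] for each t in P_g. If no g
has arbitrarily small elements choose ε_g > 0 with no element of P_g below ε_g and take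
t = min ε_g / 2: it is in no P_g, contradiction.) With this g, P_g ⊇ (0, ε]: use s = ε/2, t' = ε
as above, then a + t b ≥ 0 for all t ∈ (0, ε]: a v ≥ 0 (if a v < 0: if b v ≤ 0 then t = ε gives a
contradiction; if b v > 0 take t = min ε (-a v / (2 b v))), and if a v = 0 then ε b v ≥ 0.
CO: co_unique by lin and the choice; co_lc: the p v, v ∈ f, #f = d, independent in dimension d, so
they span: c = lc a with a supported on f.
-/

open Finset

namespace Pool.Agent.Helper82.TI.Fan

variable {K V : Type} [Field K] [LinearOrder K] [IsStrictOrderedRing K] [Fintype V]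
  [DecidableEq V] {d : ℕ} {G : SimpleGraph V} {p : V → Fin d → K}

omit [LinearOrder K] [IsStrictOrderedRing K] [DecidableEq V] in
theorem lc_add (a b : V → K) : lc p (a + b) = lc p a + lc p b := by
  funext j; simp [lc, add_mul, Finset.sum_add_distrib]

omit [LinearOrder K] [IsStrictOrderedRing K] [DecidableEq V] in
theorem lc_smul (t : K) (a : V → K) : lc p (t • a) = t • lc p a := by
  funext j; simp [lc, Finset.mul_sum, mul_assoc]

omit [LinearOrder K] [IsStrictOrderedRing K] [DecidableEq V] in
private theorem lc_sub (a b : V → K) : lc p (a - b) = lc p a - lc p b := by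
  funext j; simp [lc, sub_mul, Finset.sum_sub_distrib]

omit [LinearOrder K] [IsStrictOrderedRing K] [Fintype V] [DecidableEq V] in
private theorem clique_supp {σ : Finset V} (hσ : G.IsClique (σ : Set V)) {b : V → K}
    (hb : ∀ v, v ∉ σ → b v = 0) : G.IsClique {v | b v ≠ 0} := by
  refine SimpleGraph.IsClique.subset ?_ hσ
  intro v hv
  by_contra h
  exact hv (hb v (fun h' => h (Finset.mem_coe.2 h')))

theorem lin (hF : IsFan G p) {σ : Finset V} (hσ : G.IsClique (σ : Set V)) {a : V → K}
    (ha : ∀ v, v ∉ σ → a v = 0) (h : lc p a = 0) : a = 0 := by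
  have hsub : (fun v => max (a v) 0) = (fun v => max (-a v) 0) + a := by
    funext v
    simp only [Pi.add_apply]
    rcases le_total 0 (a v) with h1 | h1
    · rw [max_eq_left h1, max_eq_right (neg_nonpos.2 h1)]; ring
    · rw [max_eq_right h1, max_eq_left (neg_nonneg.2 h1)]; ring
  have hlc : lc p (fun v => max (a v) 0) = lc p (fun v => max (-a v) 0) := by
    rw [hsub, lc_add, h, add_zero]
  obtain ⟨e, he, hu⟩ := hF (lc p (fun v => max (a v) 0))
  have e1 := hu (fun v => max (a v) 0) ⟨fun v => le_max_right _ _,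
    clique_supp hσ (fun v hv => by simp [ha v hv]), rfl⟩
  have e2 := hu (fun v => max (-a v) 0) ⟨fun v => le_max_right _ _,
    clique_supp hσ (fun v hv => by simp [ha v hv]), hlc.symm⟩
  have e3 := e1.trans e2.symm
  rw [hsub] at e3
  funext v
  have := congrFun e3 v
  simp only [Pi.add_apply] at this
  simpa using this

omit [LinearOrder K] [IsStrictOrderedRing K] in
private theorem lc_eq {σ : Finset V} (g : {v // v ∈ σ} → K) :
    lc p (fun v => if h : v ∈ σ then g ⟨v, h⟩ else 0) = ∑ i, g i • p i.1 := by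
  funext j
  simp only [lc, Finset.sum_apply, Pi.smul_apply, smul_eq_mul]
  rw [← Finset.sum_subset (Finset.subset_univ σ) (fun v _ hv => by simp [hv])]
  rw [← Finset.sum_coe_sort σ]
  refine Finset.sum_congr rfl (fun i _ => ?_)
  simp

private theorem indep (hF : IsFan G p) {σ : Finset V} (hσ : G.IsClique (σ : Set V)) :
    LinearIndependent K (fun i : {v // v ∈ σ} => p i.1) := by
  rw [Fintype.linearIndependent_iff]
  intro g hg i
  have h0 := lin hF hσ (a := fun v => if h : v ∈ σ then g ⟨v, h⟩ else 0)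
    (fun v hv => by simp [hv]) (by rw [lc_eq, hg])
  have := congrFun h0 i.1
  simpa using this

theorem card_le (hF : IsFan G p) {σ : Finset V} (hσ : G.IsClique (σ : Set V)) :
    σ.card ≤ d := by
  have h := (indep hF hσ).fintype_card_le_finrank
  simpa using h

/-- The positive parameters of the points of the ray from `r` in the cone of `g`. -/
private def PG (p : V → Fin d → K) (r u : Fin d → K) (g : Finset V) (t : K) : Prop :=
  0 < t ∧ ∃ a : V → K, (∀ v, 0 ≤ a v) ∧ (∀ v, v ∉ g → a v = 0) ∧ lc p a = r + t • u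

private theorem exists_small (hF : IsFan G p) (r u : Fin d → K) :
    ∃ g : Finset V, G.IsClique (g : Set V) ∧ ∀ ε : K, 0 < ε → ∃ t, PG p r u g t ∧ t < ε := by
  by_contra hcon
  push Not at hcon
  have h1 : ∀ g : Finset V, ∃ ε : K, 0 < ε ∧
      (G.IsClique (g : Set V) → ∀ t, PG p r u g t → ε ≤ t) := by
    intro g
    by_cases hg : G.IsClique (g : Set V)
    · obtain ⟨ε, h0, h2⟩ := hcon g hg
      exact ⟨ε, h0, fun _ => h2⟩
    · exact ⟨1, one_pos, fun h => absurd h hg⟩
  choose e he0 he1 using h1
  obtain ⟨g0, -, hg0⟩ := Finset.exists_min_image (Finset.univ : Finset (Finset V)) e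
    ⟨∅, Finset.mem_univ _⟩
  have hpos : 0 < e g0 / 2 := half_pos (he0 g0)
  obtain ⟨a, ⟨ha0, ha1, ha2⟩, -⟩ := hF (r + (e g0 / 2) • u)
  have hcl : G.IsClique ((Finset.univ.filter (fun v => a v ≠ 0) : Finset V) : Set V) := by
    simpa using ha1
  have h3 := he1 _ hcl (e g0 / 2) ⟨hpos, a, ha0, fun v hv => by simpa using hv, ha2⟩
  have h4 := hg0 (Finset.univ.filter (fun v => a v ≠ 0)) (Finset.mem_univ _)
  have h5 : e g0 / 2 < e g0 := half_lt_self (he0 g0)
  exact absurd (lt_of_le_of_lt (h4.trans h3) h5) (lt_irrefl _)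

theorem germ (hF : IsFan G p) (r u : Fin d → K) :
    ∃ g : Finset V, G.IsClique (g : Set V) ∧ ∃ a b : V → K, (∀ v, v ∉ g → a v = 0) ∧
      (∀ v, v ∉ g → b v = 0) ∧ (∀ v, 0 ≤ a v) ∧ (∀ v, a v = 0 → 0 ≤ b v) ∧
      lc p a = r ∧ lc p b = u := by
  obtain ⟨g, hg, hsm⟩ := exists_small hF r u
  obtain ⟨t, ⟨ht, at', hat0, hat1, hat2⟩, -⟩ := hsm 1 one_pos
  obtain ⟨s, ⟨hs, as', has0, has1, has2⟩, hst⟩ := hsm t ht
  have hne : t - s ≠ 0 := (sub_pos.2 hst).ne'
  have hb : lc p ((t - s)⁻¹ • (at' - as')) = u := by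
    rw [lc_smul, lc_sub, hat2, has2, add_sub_add_left_eq_sub, ← sub_smul, smul_smul,
      inv_mul_cancel₀ hne, one_smul]
  have hbg : ∀ v, v ∉ g → ((t - s)⁻¹ • (at' - as')) v = 0 := by
    intro v hv
    simp [hat1 v hv, has1 v hv]
  set b : V → K := (t - s)⁻¹ • (at' - as') with hbdef
  have ha : lc p (as' - s • b) = r := by
    rw [lc_sub, lc_smul, hb, has2, add_sub_cancel_right]
  have hag : ∀ v, v ∉ g → (as' - s • b) v = 0 := by
    intro v hv
    simp only [Pi.sub_apply, Pi.smul_apply, smul_eq_mul, has1 v hv, hbg v hv, mul_zero, sub_zero]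
  set a : V → K := as' - s • b with hadef
  have key : ∀ τ, PG p r u g τ → ∀ v, 0 ≤ a v + τ * b v := by
    rintro τ ⟨hτ, c, hc0, hc1, hc2⟩ v
    have h0 : a + τ • b - c = 0 := by
      refine lin hF hg (fun w hw => ?_) ?_
      · simp only [Pi.sub_apply, Pi.add_apply, Pi.smul_apply, smul_eq_mul, hag w hw, hbg w hw,
          hc1 w hw, mul_zero, sub_zero, add_zero]
      · rw [lc_sub, lc_add, lc_smul, ha, hb, hc2, sub_self]
    have h1 := congrFun h0 v
    simp only [Pi.sub_apply, Pi.add_apply, Pi.smul_apply, smul_eq_mul, Pi.zero_apply] at h1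
    have h2 := hc0 v
    linarith
  refine ⟨g, hg, a, b, hag, hbg, fun v => ?_, fun v hv => ?_, ha, hb⟩
  · by_contra hneg
    rw [not_le] at hneg
    rcases le_or_gt (b v) 0 with hbv | hbv
    · obtain ⟨τ, hτ, -⟩ := hsm 1 one_pos
      have h1 := key τ hτ v
      have h2 : τ * b v ≤ 0 := mul_nonpos_of_nonneg_of_nonpos hτ.1.le hbv
      linarith
    · obtain ⟨τ, hτ, hlt⟩ := hsm (-a v / b v) (div_pos (neg_pos.2 hneg) hbv)
      have h1 := key τ hτ v
      rw [lt_div_iff₀ hbv] at hlt
      linarith
  · obtain ⟨τ, hτ, -⟩ := hsm 1 one_pos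
    have h1 := key τ hτ v
    rw [hv, zero_add] at h1
    by_contra hneg
    rw [not_le] at hneg
    have h2 : τ * b v < 0 := mul_neg_of_pos_of_neg hτ.1 hneg
    linarith

theorem co_supp (p : V → Fin d → K) (f : Finset V) (c : Fin d → K) {v : V} (hv : v ∉ f) :
    co p f c v = 0 := by
  unfold co
  split_ifs with h
  · exact h.choose_spec.1 v hv
  · rfl

theorem co_lc (hF : IsFan G p) {f : Finset V} (hf : G.IsNClique d f) (c : Fin d → K) :
    lc p (co p f c) = c := by
  have hex : ∃ a : V → K, (∀ v, v ∉ f → a v = 0) ∧ lc p a = c := by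
    have hi := indep hF hf.isClique
    have hspan := hi.span_eq_top_of_card_eq_finrank' (by simp [hf.card_eq])
    have hmem : c ∈ Submodule.span K (Set.range (fun i : {v // v ∈ f} => p i.1)) := by
      rw [hspan]; exact Submodule.mem_top
    rw [Submodule.mem_span_range_iff_exists_fun] at hmem
    obtain ⟨g, hg⟩ := hmem
    exact ⟨fun v => if h : v ∈ f then g ⟨v, h⟩ else 0, fun v hv => by simp [hv],
      by rw [lc_eq, hg]⟩
  unfold co
  rw [dif_pos hex]
  exact hex.choose_spec.2

theorem co_unique (hF : IsFan G p) {f : Finset V} (hf : G.IsClique (f : Set V)) {a : V → K}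
    (ha : ∀ v, v ∉ f → a v = 0) : co p f (lc p a) = a := by
  have hex : ∃ b : V → K, (∀ v, v ∉ f → b v = 0) ∧ lc p b = lc p a := ⟨a, ha, rfl⟩
  have h1 : co p f (lc p a) = hex.choose := by
    unfold co
    rw [dif_pos hex]
  have h2 : co p f (lc p a) - a = 0 := by
    refine lin hF hf (fun v hv => ?_) ?_
    · rw [Pi.sub_apply, co_supp p f _ hv, ha v hv, sub_zero]
    · rw [lc_sub, h1, hex.choose_spec.2, sub_self]
  exact sub_eq_zero.1 h2

end Pool.Agent.Helper82.TI.Fan
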