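import Pool.Agent.Helper82.TI.Fan.Part

/-!
# Project TI: localization

Let W f = (δ f * ∏_{v ∈ f} co f c v)⁻¹ and I(μ) = ∑_f W f ∏_{v ∈ μ} co f c v (sum over the facets;
the product is over the multiset μ, and it is zero if some v ∈ μ is not in f).
PROOF. (1) For every linear functional ℓ on Fin d → K and every multiset ν:
ℓ(c) I(ν) = ∑_w ℓ(p w) I(w ::ₘ ν), because ∑_w co f c w ℓ(p w) = ℓ(c) for every facet f (co_lc).
(2) card μ = d - 1 (d ≥ 1), by induction on d - 1 - #supp μ (supp μ = μ.toFinset): I(μ) = 0.
If supp μ is not contained in a facet every term is 0. If μ has no multiple element: μ = σ.val,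
#σ = d - 1, let f ⊇ σ be a facet, f = insert v σ, σ = f.erase v, g = insert w σ the other facet
(ridge). The sum has only the two terms f, g (a facet containing σ is f or g):
W f ∏_{u ∈ σ} co f c u = (δ f * co f c v)⁻¹ and for g: (δ g * co g c w)⁻¹, and
co f c v = co g c w * co f (p w) v (c = lc (co g c), take the coordinate v in f: only w contributes,
since u ∈ σ are in f), δ g = δ f * (- co f (p w) v): δ g * co g c w = - δ f * co f c v. Sum 0.
If μ has a multiple element v, μ = v ::ₘ ν with v ∈ ν, supp ν = supp μ =: σ, #σ < d - 1 ≤ ..., σ ⊆ f a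
facet (#f = d) and choose v' ∈ f \ σ. Let ℓ(y) = co f y v - (co f c v / co f c v') co f y v' (co f is
linear: by co_unique, or define ℓ directly through a dual basis): ℓ(c) = 0, ℓ(p v) = 1, ℓ(p u) = 0 for
u ∈ σ, u ≠ v. By (1) for ν: 0 = I(v ::ₘ ν) + ∑_{w ∉ σ} ℓ(p w) I(w ::ₘ ν), and each w ::ₘ ν, w ∉ σ, has
card d - 1 and larger support: zero by induction.
(3) card μ < d - 1: by downward induction, choose any facet f (exists: part with σ = ∅), v ∈ f and
ℓ = co f · v: ℓ(c) ≠ 0 (co_ne) and ℓ(c) I(μ) = ∑_w ℓ(p w) I(w ::ₘ μ) = 0.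
-/

open Finset

namespace Pool.Agent.Helper82.TI.Fan

variable {K V : Type} [Field K] [LinearOrder K] [IsStrictOrderedRing K] [Fintype V]
  [DecidableEq V] {d : ℕ} {G : SimpleGraph V} {p : V → Fin d → K}

/-- The indicator of `v`. -/
private def i1 (K : Type) [Field K] (v : V) : V → K := fun w => if w = v then 1 else 0

omit [LinearOrder K] [IsStrictOrderedRing K] in
private theorem lc_i1 (v : V) : lc p (i1 K v) = p v := by
  funext j
  simp [lc, i1]

/-- The coordinate `v` with respect to the facet `f`, a linear functional. -/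
private noncomputable def cf (hF : IsFan G p) {f : Finset V} (hf : G.IsNClique d f) (v : V) :
    (Fin d → K) →ₗ[K] K where
  toFun y := co p f y v
  map_add' y z := by
    have h : co p f (y + z) = co p f y + co p f z := by
      conv_lhs => rw [← co_lc hF hf y, ← co_lc hF hf z, ← lc_add]
      exact co_unique hF hf.isClique (fun u hu => by
        rw [Pi.add_apply, co_supp p f _ hu, co_supp p f _ hu, add_zero])
    rw [h, Pi.add_apply]
  map_smul' t y := by
    have h : co p f (t • y) = t • co p f y := by
      conv_lhs => rw [← co_lc hF hf y, ← lc_smul]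
      exact co_unique hF hf.isClique (fun u hu => by
        rw [Pi.smul_apply, co_supp p f _ hu, smul_zero])
    rw [h, Pi.smul_apply, RingHom.id_apply]

private theorem cf_apply (hF : IsFan G p) {f : Finset V} (hf : G.IsNClique d f) (v : V)
    (y : Fin d → K) : cf hF hf v y = co p f y v := rfl

private theorem co_self (hF : IsFan G p) {f : Finset V} (hf : G.IsNClique d f) {u : V}
    (hu : u ∈ f) : co p f (p u) = i1 K u := by
  conv_lhs => rw [← lc_i1 (p := p) u]
  refine co_unique hF hf.isClique (fun w hw => ?_)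
  unfold i1
  rw [if_neg]
  intro h
  exact hw (h ▸ hu)

private theorem co_one (hF : IsFan G p) {f : Finset V} (hf : G.IsNClique d f) {u : V}
    (hu : u ∈ f) : co p f (p u) u = 1 := by
  rw [co_self hF hf hu]; simp [i1]

private theorem co_zero (hF : IsFan G p) {f : Finset V} (hf : G.IsNClique d f) {u v : V}
    (hu : u ∈ f) (h : v ≠ u) : co p f (p u) v = 0 := by
  rw [co_self hF hf hu]; simp [i1, h]

private theorem fun_lc (hF : IsFan G p) {f : Finset V} (hf : G.IsNClique d f) (c : Fin d → K)
    (l : (Fin d → K) →ₗ[K] K) : l c = ∑ w, co p f c w * l (p w) := by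
  have h : c = ∑ w, co p f c w • p w := by
    conv_lhs => rw [← co_lc hF hf c]
    funext j
    simp [lc, Finset.sum_apply]
  conv_lhs => rw [h]
  rw [map_sum]
  refine Finset.sum_congr rfl (fun w _ => ?_)
  rw [map_smul, smul_eq_mul]

/-- The sum `I(μ)`. -/
private noncomputable def II (G : SimpleGraph V) (p : V → Fin d → K) (c : Fin d → K)
    (δ : Finset V → K) (μ : Multiset V) : K :=
  ∑ f : {f : Finset V // G.IsNClique d f},
      (δ f.1 * ∏ v ∈ f.1, co p f.1 c v)⁻¹ * (μ.map (fun v => co p f.1 c v)).prod

private theorem step (hF : IsFan G p) (c : Fin d → K) (δ : Finset V → K)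
    (l : (Fin d → K) →ₗ[K] K) (ν : Multiset V) :
    l c * II G p c δ ν = ∑ w, l (p w) * II G p c δ (w ::ₘ ν) := by
  unfold II
  rw [Finset.mul_sum]
  simp only [Finset.mul_sum]
  rw [Finset.sum_comm]
  refine Finset.sum_congr rfl (fun f _ => ?_)
  rw [fun_lc hF f.2 c l, Finset.sum_mul]
  refine Finset.sum_congr rfl (fun w _ => ?_)
  rw [Multiset.map_cons, Multiset.prod_cons]
  ring

omit [LinearOrder K] [IsStrictOrderedRing K] [DecidableEq V] in
private theorem prod_zero {f : Finset V} {c : Fin d → K} {μ : Multiset V} {v : V} (hv : v ∈ μ)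
    (hvf : co p f c v = 0) : (μ.map (fun v => co p f c v)).prod = 0 := by
  refine Multiset.prod_eq_zero ?_
  rw [Multiset.mem_map]
  exact ⟨v, hv, hvf⟩

private theorem nodup_case (hF : IsFan G p) {c : Fin d → K} (hc : Gen G p c)
    {δ : Finset V → K} (h0 : ∀ f, G.IsNClique d f → 0 < δ f)
    (h1 : ∀ f v w, G.IsNClique d f → v ∈ f → w ∉ f → G.IsNClique d (insert w (f.erase v)) →
        co p f (p w) v < 0 → δ (insert w (f.erase v)) = δ f * (- co p f (p w) v))
    {f : Finset V} (hf : G.IsNClique d f) {v : V} (hv : v ∈ f) :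
    II G p c δ (f.erase v).val = 0 := by
  obtain ⟨w, hwf, hg, hneg, huniq⟩ := ridge hF hf hv
  have hδ := h1 f v w hf hv hwf hg hneg
  have hwσ : w ∉ f.erase v := fun h => hwf (Finset.mem_of_mem_erase h)
  have hvσ : v ∉ f.erase v := by simp
  have hfg : f ≠ insert w (f.erase v) := fun h => hwf (by rw [h]; exact Finset.mem_insert_self _ _)
  -- the two coordinates
  have hco : co p f c v = co p (insert w (f.erase v)) c w * co p f (p w) v := by
    have h2 := fun_lc hF hg c (cf hF hf v)
    rw [cf_apply] at h2
    rw [h2, Finset.sum_eq_single w]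
    · rw [cf_apply]
    · intro u _ huw
      rw [cf_apply]
      by_cases hug : u ∈ insert w (f.erase v)
      · have huσ : u ∈ f.erase v := (Finset.mem_insert.1 hug).resolve_left huw
        rw [co_zero hF hf (Finset.mem_of_mem_erase huσ) (Finset.ne_of_mem_erase huσ).symm,
          mul_zero]
      · rw [co_supp p _ c hug, zero_mul]
    · intro h
      exact absurd (Finset.mem_univ w) h
  have hPf : ∏ u ∈ f, co p f c u = co p f c v * ∏ u ∈ f.erase v, co p f c u :=
    (Finset.mul_prod_erase f (fun u => co p f c u) hv).symm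
  have hPg : ∏ u ∈ insert w (f.erase v), co p (insert w (f.erase v)) c u =
      co p (insert w (f.erase v)) c w * ∏ u ∈ f.erase v, co p (insert w (f.erase v)) c u :=
    Finset.prod_insert hwσ
  have hnf : ∏ u ∈ f.erase v, co p f c u ≠ 0 :=
    Finset.prod_ne_zero_iff.2 (fun u hu => co_ne hF hf hc (Finset.mem_of_mem_erase hu))
  have hng : ∏ u ∈ f.erase v, co p (insert w (f.erase v)) c u ≠ 0 :=
    Finset.prod_ne_zero_iff.2 (fun u hu => co_ne hF hg hc (Finset.mem_insert_of_mem hu))
  have hnv : co p f c v ≠ 0 := co_ne hF hf hc hv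
  have hnw : co p (insert w (f.erase v)) c w ≠ 0 :=
    co_ne hF hg hc (Finset.mem_insert_self _ _)
  have hδf : δ f ≠ 0 := (h0 f hf).ne'
  have hβ : co p f (p w) v ≠ 0 := hneg.ne
  unfold II
  rw [← Finset.sum_subset (Finset.subset_univ
    ({⟨f, hf⟩, ⟨insert w (f.erase v), hg⟩} : Finset {f : Finset V // G.IsNClique d f}))]
  · rw [Finset.sum_pair (by
      intro h
      exact hfg (congrArg Subtype.val h))]
    simp only [Finset.prod_map_val]
    rw [hPf, hPg, hδ, hco]
    field_simp
    ring
  · rintro ⟨g, hgc⟩ - hgn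
    have hex : ∃ u ∈ f.erase v, u ∉ g := by
      by_contra hcon
      push Not at hcon
      rcases huniq g hgc hcon with h | h
      · exact hgn (by simp [h])
      · exact hgn (by simp [h])
    obtain ⟨u, hu, hug⟩ := hex
    rw [prod_zero (p := p) (f := g) (c := c) (μ := (f.erase v).val) hu (co_supp p g c hug), mul_zero]

private theorem top_case (hF : IsFan G p) {c : Fin d → K} (hc : Gen G p c)
    {δ : Finset V → K} (h0 : ∀ f, G.IsNClique d f → 0 < δ f)
    (h1 : ∀ f v w, G.IsNClique d f → v ∈ f → w ∉ f → G.IsNClique d (insert w (f.erase v)) →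
        co p f (p w) v < 0 → δ (insert w (f.erase v)) = δ f * (- co p f (p w) v))
    (n : ℕ) : ∀ μ : Multiset V, Multiset.card μ + 1 = d → d ≤ μ.toFinset.card + n →
      II G p c δ μ = 0 := by
  induction n with
  | zero =>
    intro μ hμ hn
    have := Multiset.toFinset_card_le μ
    omega
  | succ n ih =>
    intro μ hμ hn
    by_cases hex : ∃ f : Finset V, G.IsNClique d f ∧ μ.toFinset ⊆ f
    swap
    · unfold II
      refine Finset.sum_eq_zero (fun f _ => ?_)
      have h2 : ¬ μ.toFinset ⊆ f.1 := fun h => hex ⟨f.1, f.2, h⟩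
      obtain ⟨u, hu, huf⟩ := Finset.not_subset.1 h2
      rw [prod_zero (p := p) (f := f.1) (c := c) (Multiset.mem_toFinset.1 hu)
        (co_supp p f.1 c huf), mul_zero]
    obtain ⟨f, hf, hσf⟩ := hex
    by_cases hnd : μ.Nodup
    · -- no multiple element
      have hcard : μ.toFinset.card + 1 = f.card := by
        rw [Multiset.toFinset_card_of_nodup hnd, hμ, hf.card_eq]
      obtain ⟨v, hvf, hvσ⟩ : ∃ v ∈ f, v ∉ μ.toFinset := by
        by_contra hcon
        push Not at hcon
        have := Finset.card_le_card (show f ⊆ μ.toFinset from hcon)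
        omega
      have he : μ.toFinset = f.erase v := by
        refine Finset.eq_of_subset_of_card_le (fun u hu => ?_) ?_
        · refine Finset.mem_erase.2 ⟨?_, hσf hu⟩
          rintro rfl
          exact hvσ hu
        · rw [Finset.card_erase_of_mem hvf]; omega
      have hμe : μ = (f.erase v).val := by
        rw [← he, Multiset.toFinset_val, Multiset.dedup_eq_self.2 hnd]
      rw [hμe]
      exact nodup_case hF hc h0 h1 hf hvf
    · -- a multiple element
      rw [Multiset.nodup_iff_le] at hnd
      push Not at hnd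
      obtain ⟨v, hv⟩ := hnd
      obtain ⟨ν', hν'⟩ := Multiset.le_iff_exists_add.1 hv
      have hμν : μ = v ::ₘ (v ::ₘ ν') := by
        rw [hν']; simp
      have hvν : v ∈ v ::ₘ ν' := Multiset.mem_cons_self _ _
      have hsup : μ.toFinset = (v ::ₘ ν').toFinset := by
        rw [hμν]
        simp
      have hcν : Multiset.card (v ::ₘ ν') + 1 = Multiset.card μ := by
        rw [hμν]; simp only [Multiset.card_cons]
      have hσc : μ.toFinset.card + 2 ≤ d := by
        have h2 := Multiset.toFinset_card_le (v ::ₘ ν')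
        rw [← hsup] at h2
        omega
      have hvσ : v ∈ μ.toFinset := by rw [hsup]; simp
      obtain ⟨v', hv'f, hv'σ⟩ : ∃ v' ∈ f, v' ∉ μ.toFinset := by
        by_contra hcon
        push Not at hcon
        have := Finset.card_le_card (show f ⊆ μ.toFinset from hcon)
        rw [hf.card_eq] at this
        omega
      have hvf : v ∈ f := hσf hvσ
      have hvv' : v' ≠ v := fun h => hv'σ (h ▸ hvσ)
      have hnv' : co p f c v' ≠ 0 := co_ne hF hf hc hv'f
      have hst := step hF c δ (cf hF hf v - (co p f c v / co p f c v') • cf hF hf v') (v ::ₘ ν')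
      have hlc : (cf hF hf v - (co p f c v / co p f c v') • cf hF hf v') c = 0 := by
        rw [LinearMap.sub_apply, LinearMap.smul_apply, cf_apply, cf_apply, smul_eq_mul,
          div_mul_cancel₀ _ hnv', sub_self]
      rw [hlc, zero_mul, Finset.sum_eq_single v] at hst
      · rw [LinearMap.sub_apply, LinearMap.smul_apply, cf_apply, cf_apply, smul_eq_mul,
          co_one hF hf hvf, co_zero hF hf hvf hvv', mul_zero, sub_zero, one_mul, ← hμν] at hst
        exact hst.symm
      · intro w _ hwv
        by_cases hwσ : w ∈ μ.toFinset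
        · have hwf : w ∈ f := hσf hwσ
          have hv'w : v' ≠ w := fun h => hv'σ (h ▸ hwσ)
          rw [LinearMap.sub_apply, LinearMap.smul_apply, cf_apply, cf_apply, smul_eq_mul,
            co_zero hF hf hwf (Ne.symm hwv), co_zero hF hf hwf hv'w, mul_zero, sub_zero,
            zero_mul]
        · rw [ih (w ::ₘ (v ::ₘ ν')), mul_zero]
          · rw [Multiset.card_cons, hcν, hμ]
          · rw [Multiset.toFinset_cons, ← hsup, Finset.card_insert_of_notMem hwσ]
            omega
      · intro h
        exact absurd (Finset.mem_univ v) h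

theorem localization (hF : IsFan G p) {c : Fin d → K} (hc : Gen G p c) {δ : Finset V → K}
    (h0 : ∀ f, G.IsNClique d f → 0 < δ f)
    (h1 : ∀ f v w, G.IsNClique d f → v ∈ f → w ∉ f → G.IsNClique d (insert w (f.erase v)) →
        co p f (p w) v < 0 → δ (insert w (f.erase v)) = δ f * (- co p f (p w) v))
    {μ : Multiset V} (hμ : Multiset.card μ < d) :
    ∑ f : {f : Finset V // G.IsNClique d f},
      (δ f.1 * ∏ v ∈ f.1, co p f.1 c v)⁻¹ * (μ.map (fun v => co p f.1 c v)).prod = 0 := by
  have key : ∀ n : ℕ, ∀ μ : Multiset V, Multiset.card μ + 1 + n = d → II G p c δ μ = 0 := by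
    intro n
    induction n with
    | zero =>
      intro μ h
      exact top_case hF hc h0 h1 d μ (by omega) (by omega)
    | succ n ih =>
      intro μ h
      obtain ⟨f, ⟨hf, -, -⟩, -⟩ := part hF hc (σ := ∅) (by simp)
      have hne : f.Nonempty := by
        rw [← Finset.card_pos, hf.card_eq]; omega
      obtain ⟨v, hv⟩ := hne
      have hst := step hF c δ (cf hF hf v) μ
      rw [Finset.sum_eq_zero (fun w _ => by
        rw [ih (w ::ₘ μ) (by rw [Multiset.card_cons]; omega), mul_zero]), cf_apply] at hst
      exact (mul_eq_zero.1 hst).resolve_left (co_ne hF hf hc hv)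
  exact key (d - 1 - Multiset.card μ) μ (by omega)

end Pool.Agent.Helper82.TI.Fan
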