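import Pool.Agent.Helper82.TI.Fan.Shell
import Pool.Agent.Helper51.CD.Cube

/-!
# Project TI: the signs of the weights

PROOFS. PAR_FAN: if no facet contains τ both sums are empty. For a facet f ⊇ τ:
sign ((δ f * ∏_{v ∈ f} co)⁻¹ * ∏_{v ∈ τ} co) = (-1)^#(N f \ τ), N f = {v ∈ f : co f c v < 0}
(δ f > 0, all factors nonzero by co_ne; the product over f times the product over τ has the sign of
the product over f \ τ). By part_sum with x = -1/2 (R = ℚ) and T = N (partition: part, co_ne):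
∑_{σ ⊇ τ} (-1/2)^#(σ \ τ) = ∑_{f ⊇ τ} (-1/2)^a (1/2)^(m - a), a = #(N f \ τ), m = d - #τ,
= (1/2)^m ∑_f (-1)^#(N f \ τ) (a ≤ m), and with T = Rs (Rs_part) = (1/2)^m ∑_f (-1)^#(Rs f \ τ).
KAPPA_FAN: the last identity for τ = ∅ and Cube.kappa G univ = ∑_{cliques} (-1/2)^#σ
(mem_cliquesIn).
-/

open Finset

namespace Pool.Agent.Helper82.TI.Fan

open Pool.Agent.Helper51.CD.Cube

variable {K V : Type} [Field K] [LinearOrder K] [IsStrictOrderedRing K] [Fintype V]
  [DecidableEq V] {d : ℕ} {G : SimpleGraph V} {p : V → Fin d → K}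

/-- The sign of a product of nonzero numbers. -/
private theorem sgn_prod (x : V → K) (s : Finset V) (h : ∀ v ∈ s, x v ≠ 0) :
    ((SignType.sign (∏ v ∈ s, x v) : SignType) : ℤ) = (-1 : ℤ) ^ (s.filter (fun v => x v < 0)).card := by
  classical
  induction s using Finset.induction_on with
  | empty => simp
  | insert a s ha ih =>
    have ih' := ih (fun v hv => h v (mem_insert_of_mem hv))
    have hxa : x a ≠ 0 := h a (mem_insert_self a s)
    rw [Finset.prod_insert ha, sign_mul, SignType.coe_mul, ih', Finset.filter_insert]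
    rcases lt_or_gt_of_ne hxa with h1 | h1
    · rw [if_pos h1, Finset.card_insert_of_notMem (fun h2 => ha (Finset.mem_filter.1 h2).1),
        sign_neg h1, pow_succ]
      simp
    · rw [if_neg (not_lt.2 h1.le), sign_pos h1]
      simp

private theorem sgn_term (x : V → K) {f τ : Finset V} (hτ : τ ⊆ f) (h : ∀ v ∈ f, x v ≠ 0)
    {r : K} (hr : 0 < r) :
    ((SignType.sign ((r * ∏ v ∈ f, x v)⁻¹ * ∏ v ∈ τ, x v) : SignType) : ℤ) =
      (-1 : ℤ) ^ ((f.filter (fun v => x v < 0)) \ τ).card := by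
  have hP : ∏ v ∈ τ, x v ≠ 0 := Finset.prod_ne_zero_iff.2 (fun v hv => h v (hτ hv))
  have hQ : ∏ v ∈ f \ τ, x v ≠ 0 :=
    Finset.prod_ne_zero_iff.2 (fun v hv => h v (mem_sdiff.1 hv).1)
  have h1 : (r * ∏ v ∈ f, x v)⁻¹ * ∏ v ∈ τ, x v = (r * ∏ v ∈ f \ τ, x v)⁻¹ := by
    rw [← Finset.prod_sdiff hτ]
    field_simp
  have h2 : (f.filter (fun v => x v < 0)) \ τ = (f \ τ).filter (fun v => x v < 0) := by
    ext v
    simp only [mem_sdiff, mem_filter]
    tauto
  have h3 : SignType.sign ((r * ∏ v ∈ f \ τ, x v)⁻¹) = SignType.sign (∏ v ∈ f \ τ, x v) := by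
    have h4 : SignType.sign (r * ∏ v ∈ f \ τ, x v) = SignType.sign (∏ v ∈ f \ τ, x v) := by
      rw [sign_mul, sign_pos hr, one_mul]
    rw [← h4]
    rcases lt_trichotomy (r * ∏ v ∈ f \ τ, x v) 0 with h5 | h5 | h5
    · rw [sign_neg h5, sign_neg (inv_lt_zero.2 h5)]
    · rw [h5, inv_zero]
    · rw [sign_pos h5, sign_pos (inv_pos.2 h5)]
  rw [h1, h3, h2]
  exact sgn_prod x (f \ τ) (fun v hv => h v (mem_sdiff.1 hv).1)

private theorem sum_sub {M : Type} [AddCommMonoid M] (τ : Finset V) (F : Finset V → M)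
    (S : Finset (Finset V)) (hS : ∀ f, f ∈ S ↔ G.IsNClique d f ∧ τ ⊆ f) :
    ∑ f ∈ univ.filter (fun f : {f : Finset V // G.IsNClique d f} => τ ⊆ f.1), F f.1 =
      ∑ f ∈ S, F f := by
  refine Finset.sum_bij (fun f _ => f.1) ?_ ?_ ?_ ?_
  · intro f hf
    exact (hS f.1).2 ⟨f.2, (Finset.mem_filter.1 hf).2⟩
  · intro f _ g _ h
    exact Subtype.ext h
  · intro f hf
    obtain ⟨h1, h2⟩ := (hS f).1 hf
    exact ⟨⟨f, h1⟩, Finset.mem_filter.2 ⟨mem_univ _, h2⟩, rfl⟩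
  · intro f _
    rfl

open scoped Classical in
private theorem key {τ : Finset V} (T : Finset V → Finset V)
    (hT : ∀ f, G.IsNClique d f → T f ⊆ f)
    (hu : ∀ σ : Finset V, G.IsClique (σ : Set V) → τ ⊆ σ →
      ∃! f : Finset V, G.IsNClique d f ∧ σ ⊆ f ∧ T f ⊆ σ) :
    ∑ σ ∈ univ.filter (fun σ : Finset V => G.IsClique (σ : Set V) ∧ τ ⊆ σ),
      (-1 / 2 : ℚ) ^ (σ \ τ).card = (1 / 2 : ℚ) ^ (d - τ.card) *
    ((∑ f ∈ univ.filter (fun f : {f : Finset V // G.IsNClique d f} => τ ⊆ f.1),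
      (-1 : ℤ) ^ (T f.1 \ τ).card : ℤ) : ℚ) := by
  rw [← part_sum (-1 / 2 : ℚ) T hT hu]
  rw [sum_sub τ (fun f => (-1 : ℤ) ^ (T f \ τ).card)
    (univ.filter (fun f : Finset V => G.IsNClique d f ∧ τ ⊆ f)) (by simp)]
  push_cast
  rw [Finset.mul_sum]
  refine Finset.sum_congr rfl (fun f hf => ?_)
  obtain ⟨h1, h2⟩ := (Finset.mem_filter.1 hf).2
  have h3 : (T f \ τ).card ≤ d - τ.card := by
    rw [← h1.card_eq, ← Finset.card_sdiff_of_subset h2]
    exact Finset.card_le_card (Finset.sdiff_subset_sdiff (hT f h1) (le_refl _))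
  obtain ⟨m, hm⟩ := Nat.exists_eq_add_of_le h3
  rw [hm, Nat.add_sub_cancel_left, pow_add]
  have h4 : (-1 / 2 : ℚ) = (-1) * (1 / 2) := by norm_num
  have h5 : (1 + (-1) * (1 / 2) : ℚ) = 1 / 2 := by norm_num
  rw [h4, h5, mul_pow]
  ring

theorem par_fan (hF : IsFan G p) {rk : Finset V → ℕ} (hr : IsShelling G d rk) {c : Fin d → K}
    (hc : Gen G p c) {δ : Finset V → K} (h0 : ∀ f, G.IsNClique d f → 0 < δ f) (τ : Finset V) :
    ∑ f ∈ univ.filter (fun f : {f : Finset V // G.IsNClique d f} => τ ⊆ f.1),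
      (SignType.sign ((δ f.1 * ∏ v ∈ f.1, co p f.1 c v)⁻¹ * ∏ v ∈ τ, co p f.1 c v) : ℤ) =
    ∑ f ∈ univ.filter (fun f : {f : Finset V // G.IsNClique d f} => τ ⊆ f.1),
      (-1 : ℤ) ^ (Rs G d rk f.1 \ τ).card := by
  classical
  have e1 := key (τ := τ) (fun f => f.filter (fun v => co p f c v < 0))
    (fun f _ => Finset.filter_subset _ _) (by
      intro σ hσ _
      obtain ⟨f, hf, hf'⟩ := part hF hc hσ
      refine ⟨f, ⟨hf.1, hf.2.1, ?_⟩, ?_⟩
      · intro v hv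
        obtain ⟨h1, h2⟩ := Finset.mem_filter.1 hv
        by_contra h3
        exact absurd (hf.2.2 v h1 h3) (not_lt.2 h2.le)
      · rintro g ⟨h1, h2, h3⟩
        refine hf' g ⟨h1, h2, ?_⟩
        intro v hv hvσ
        rcases lt_or_gt_of_ne (co_ne hF h1 hc hv) with h4 | h4
        · exact absurd (h3 (Finset.mem_filter.2 ⟨hv, h4⟩)) hvσ
        · exact h4)
  have e2 := key (τ := τ) (fun f => Rs G d rk f) (fun f _ => Rs_sub rk f) (by
      intro σ hσ _
      exact Rs_part hF hr hσ)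
  rw [e1] at e2
  have e3 := mul_left_cancel₀ (pow_ne_zero _ (by norm_num : (1 / 2 : ℚ) ≠ 0)) e2
  have e4 := Int.cast_injective (α := ℚ) e3
  rw [← e4]
  refine Finset.sum_congr rfl (fun f hf => ?_)
  exact sgn_term (co p f.1 c) (Finset.mem_filter.1 hf).2 (fun v hv => co_ne hF f.2 hc hv)
    (h0 f.1 f.2)

theorem kappa_fan (hF : IsFan G p) {rk : Finset V → ℕ} (hr : IsShelling G d rk) :
    kappa G univ = (1 / 2 : ℚ) ^ d *
      ((∑ f : {f : Finset V // G.IsNClique d f}, (-1 : ℤ) ^ (Rs G d rk f.1).card : ℤ) : ℚ) := by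
  classical
  have e2 := key (τ := ∅) (fun f => Rs G d rk f) (fun f _ => Rs_sub rk f) (by
      intro σ hσ _
      exact Rs_part hF hr hσ)
  have h1 : univ.filter (fun f : {f : Finset V // G.IsNClique d f} => (∅ : Finset V) ⊆ f.1) =
      univ := by
    ext f
    simp
  rw [h1] at e2
  simp only [Finset.sdiff_empty, Finset.card_empty, Nat.sub_zero] at e2
  rw [← e2]
  unfold kappa
  refine Finset.sum_congr ?_ (fun _ _ => rfl)
  ext σ
  rw [mem_cliquesIn]
  simp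

end Pool.Agent.Helper82.TI.Fan
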