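import Pool.Agent.Helper82.TI.Fan.Germ

/-!
# Project TI: the volumes of the cones

PROOF. For f with #f = d choose an equivalence ε_f : Fin d ≃ {v // v ∈ f} and put
δ f = |det (fun i j => p (ε_f i) j)|, and δ f = 1 for other f. It does not depend on the choice of ε_f
(Matrix.det_permute: the determinant changes by a sign). δ f > 0 for a facet: the rows are
independent (lin). For f, v, w as in the statement, g = insert w (f.erase v): the map replacing v by w
turns ε_f into an equivalence of Fin d with g; the matrix of g is the matrix of f with the row i0 of v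
replaced by p w = ∑_{u ∈ f} co f (p w) u • p u (co_lc), so det = co f (p w) v * det
(Matrix.det_updateRow_sum, or multilinearity and alternation), and co f (p w) v < 0.
ALTERNATIVE: use Basis.det of a fixed basis and AlternatingMap lemmas. (LinearOrder on V is not
available; use Fintype.equivFin / Finset.equivFin f.)
-/

open Finset

namespace Pool.Agent.Helper82.TI.Fan

variable {K V : Type} [Field K] [LinearOrder K] [IsStrictOrderedRing K] [Fintype V]
  [DecidableEq V] {d : ℕ} {G : SimpleGraph V} {p : V → Fin d → K}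

/-- The matrix with the rows `p (e i)`. -/
private def rowM (p : V → Fin d → K) {f : Finset V} (e : Fin d ≃ {x // x ∈ f}) :
    Matrix (Fin d) (Fin d) K := Matrix.of fun i j => p (e i).1 j

omit [Fintype V] [DecidableEq V] in
private theorem abs_det_rowM (p : V → Fin d → K) {f : Finset V} (e e' : Fin d ≃ {x // x ∈ f}) :
    |(rowM p e).det| = |(rowM p e').det| := by
  have h := Matrix.abs_det_submatrix_equiv_equiv (e.trans e'.symm) (Equiv.refl (Fin d))
    (rowM p e')
  rw [← h]
  congr 2
  ext i j
  simp [rowM]

omit [LinearOrder K] [IsStrictOrderedRing K] [DecidableEq V] in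
private theorem sum_f (p : V → Fin d → K) {f : Finset V} (e : Fin d ≃ {x // x ∈ f}) {a : V → K}
    (ha : ∀ v, v ∉ f → a v = 0) (j : Fin d) :
    lc p a j = ∑ i, a (e i).1 * p (e i).1 j := by
  unfold lc
  rw [← Finset.sum_subset (Finset.subset_univ f) (fun v _ hv => by rw [ha v hv, zero_mul])]
  rw [← Finset.sum_coe_sort f]
  exact (Equiv.sum_comp e (fun x : {x // x ∈ f} => a x.1 * p x.1 j)).symm

private theorem det_ne (hF : IsFan G p) {f : Finset V} (hf : G.IsNClique d f)
    (e : Fin d ≃ {x // x ∈ f}) : (rowM p e).det ≠ 0 := by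
  intro h
  obtain ⟨x, hx, h0⟩ := Matrix.exists_vecMul_eq_zero_iff.2 h
  apply hx
  have h1 := lin hF hf.isClique (a := fun v => if h : v ∈ f then x (e.symm ⟨v, h⟩) else 0)
    (fun v hv => by simp [hv]) (by
      funext j
      rw [sum_f p e (fun v hv => by simp [hv]) j]
      have h2 := congrFun h0 j
      rw [Matrix.vecMul, dotProduct, Pi.zero_apply] at h2
      rw [Pi.zero_apply, ← h2]
      refine Finset.sum_congr rfl fun i _ => ?_
      simp [rowM])
  funext i
  have h2 := congrFun h1 (e i).1
  simpa using h2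

theorem exists_wt (hF : IsFan G p) :
    ∃ δ : Finset V → K, (∀ f, G.IsNClique d f → 0 < δ f) ∧
      ∀ f v w, G.IsNClique d f → v ∈ f → w ∉ f → G.IsNClique d (insert w (f.erase v)) →
        co p f (p w) v < 0 → δ (insert w (f.erase v)) = δ f * (- co p f (p w) v) := by
  classical
  obtain ⟨δ, hδ⟩ : ∃ δ : Finset V → K, ∀ (f : Finset V) (e : Fin d ≃ {x // x ∈ f}),
      δ f = |(rowM p e).det| := by
    refine ⟨fun f => if h : Nonempty (Fin d ≃ {x // x ∈ f}) then |(rowM p h.some).det| else 1,
      fun f e => ?_⟩
    have h : Nonempty (Fin d ≃ {x // x ∈ f}) := ⟨e⟩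
    simp only [dif_pos h]
    exact abs_det_rowM p _ _
  have hex : ∀ f : Finset V, G.IsNClique d f → Nonempty (Fin d ≃ {x // x ∈ f}) := fun f hf =>
    ⟨(f.equivFinOfCardEq hf.card_eq).symm⟩
  refine ⟨δ, fun f hf => ?_, ?_⟩
  · obtain ⟨e⟩ := hex f hf
    rw [hδ f e]
    exact abs_pos.2 (det_ne hF hf e)
  · intro f v w hf hv hw hg hneg
    obtain ⟨e⟩ := hex f hf
    obtain ⟨i0, hi0⟩ : ∃ i0, e i0 = ⟨v, hv⟩ := e.surjective _
    have hmem : ∀ i, i ≠ i0 → (e i).1 ∈ insert w (f.erase v) := by
      intro i hi
      refine mem_insert_of_mem (mem_erase.2 ⟨fun h => hi ?_, (e i).2⟩)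
      apply e.injective
      rw [hi0]
      exact Subtype.ext h
    obtain ⟨φ, hφ0, hφ1⟩ : ∃ φ : Fin d → {x // x ∈ insert w (f.erase v)},
        (φ i0).1 = w ∧ ∀ i, i ≠ i0 → (φ i).1 = (e i).1 := by
      refine ⟨fun i => if h : i = i0 then ⟨w, mem_insert_self w _⟩ else ⟨(e i).1, hmem i h⟩,
        ?_, ?_⟩
      · simp
      · intro i hi
        simp [hi]
    have hinj : Function.Injective φ := by
      intro i j hij
      have h1 := congrArg Subtype.val hij
      by_cases hi : i = i0
      · by_cases hj : j = i0
        · rw [hi, hj]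
        · exfalso
          rw [hi, hφ0, hφ1 j hj] at h1
          exact hw (h1 ▸ (e j).2)
      · by_cases hj : j = i0
        · exfalso
          rw [hj, hφ0, hφ1 i hi] at h1
          exact hw (h1 ▸ (e i).2)
        · rw [hφ1 i hi, hφ1 j hj] at h1
          exact e.injective (Subtype.ext h1)
    have hbij : Function.Bijective φ := by
      rw [Fintype.bijective_iff_injective_and_card]
      refine ⟨hinj, ?_⟩
      rw [Fintype.card_fin, Fintype.card_coe, hg.card_eq]
    have hM : rowM p (Equiv.ofBijective φ hbij) = (rowM p e).updateRow i0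
        (∑ k, (co p f (p w) (e k).1) • (rowM p e) k) := by
      ext i j
      by_cases hi : i = i0
      · rw [hi, Matrix.updateRow_self, Finset.sum_apply]
        have h1 : p w j = ∑ k, co p f (p w) (e k).1 * p (e k).1 j := by
          rw [← sum_f p e (fun v hv => co_supp p f (p w) hv) j, co_lc hF hf]
        have h2 : rowM p (Equiv.ofBijective φ hbij) i0 j = p w j := by
          change p (φ i0).1 j = p w j
          rw [hφ0]
        rw [h2, h1]
        exact Finset.sum_congr rfl fun k _ => rfl
      · rw [Matrix.updateRow_ne hi]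
        change p (φ i).1 j = p (e i).1 j
        rw [hφ1 i hi]
    rw [hδ f e, hδ _ (Equiv.ofBijective φ hbij), hM, Matrix.det_updateRow_sum, smul_eq_mul,
      abs_mul, hi0, abs_of_neg hneg, mul_comm]

end Pool.Agent.Helper82.TI.Fan
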