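import Pool.Agent.Helper82.TI.Fan.Local
import Pool.Agent.Helper82.TI.Fan.Wt
import Pool.Agent.Helper82.TI.Fan.Par
import Pool.Agent.Helper82.TI.Main

/-!
# Project TI: the Charney-Davis inequality for shelled fans
-/

open Finset

namespace Pool.Agent.Helper82.TI.Fan

open Pool.Agent.Helper51.CD.Cube

variable {K V : Type} [Field K] [LinearOrder K] [IsStrictOrderedRing K] [Fintype V]
  [DecidableEq V] {d : ℕ} {G : SimpleGraph V} {p : V → Fin d → K}

variable {n : Type} [Fintype n]

/-- The data of a shelled fan. -/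
noncomputable def mkDat (G : SimpleGraph V) (p : V → Fin d → K) (c : Fin d → K)
    (δ : Finset V → K) (rk : Finset V → ℕ) (x : V → n → K) :
    Dat K V {f : Finset V // G.IsNClique d f} n where
  d := d
  fac f := f.1
  X v f := co p f.1 c v
  w f := (δ f.1 * ∏ v ∈ f.1, co p f.1 c v)⁻¹
  R f := Rs G d rk f.1
  rk f := rk f.1
  x := x
  c2 := ∑ j, c j * c j

theorem mkOk (hF : IsFan G p) {rk : Finset V → ℕ} (hr : IsShelling G d rk) {c : Fin d → K}
    (hc : Gen G p c) {δ : Finset V → K} (h0 : ∀ f, G.IsNClique d f → 0 < δ f)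
    (h1 : ∀ f v w, G.IsNClique d f → v ∈ f → w ∉ f → G.IsNClique d (insert w (f.erase v)) →
        co p f (p w) v < 0 → δ (insert w (f.erase v)) = δ f * (- co p f (p w) v))
    (x : V → n → K)
    (hx : ∀ u v, (u = v ∨ G.Adj u v) → ∑ j, x u j * x v j = ∑ j, p u j * p v j)
    (hd : ∀ v, ∃ u : n → K, ∀ v', ∑ j, u j * x v' j = if v' = v then 1 else 0) :
    (mkDat G p c δ rk x).Ok where
  card f := f.2.card_eq
  X_ne v f := by
    constructor
    · intro h
      by_contra h2
      exact h (co_supp p f.1 c h2)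
    · intro h
      exact co_ne hF f.2 hc h
  w_ne f := by
    apply inv_ne_zero
    apply mul_ne_zero (h0 _ f.2).ne'
    exact prod_ne_zero_iff.2 (fun v hv => co_ne hF f.2 hc hv)
  loc μ hμ := localization hF hc h0 h1 hμ
  rk_inj f g h := Subtype.ext (hr.inj _ _ f.2 g.2 h)
  R_sub f := Rs_sub rk f.1
  R_le f g h := Rs_le hr f.2 g.2 h
  C_le f g h := Cs_le hF hr f.2 g.2 h
  par τ _ := par_fan hF hr hc h0 τ
  sq f := by
    have hcl : ∀ u v, co p f.1 c u * co p f.1 c v * ∑ j, x u j * x v j =
        co p f.1 c u * co p f.1 c v * ∑ j, p u j * p v j := by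
      intro u v
      by_cases hu : u ∈ f.1
      · by_cases hv : v ∈ f.1
        · rw [hx u v]
          by_cases huv : u = v
          · exact Or.inl huv
          · exact Or.inr (f.2.isClique (by exact_mod_cast hu) (by exact_mod_cast hv) huv)
        · rw [co_supp p f.1 c hv]; ring
      · rw [co_supp p f.1 c hu]; ring
    have key : ∀ (m : Type) [Fintype m] (y : V → m → K),
        ∑ j, (∑ v, co p f.1 c v * y v j) * (∑ v, co p f.1 c v * y v j) =
        ∑ u, ∑ v, co p f.1 c u * co p f.1 c v * ∑ j, y u j * y v j := by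
      intro m _ y
      simp_rw [Finset.sum_mul_sum, Finset.mul_sum]
      rw [Finset.sum_comm]
      refine Finset.sum_congr rfl (fun u _ => ?_)
      rw [Finset.sum_comm]
      refine Finset.sum_congr rfl (fun v _ => Finset.sum_congr rfl (fun j _ => ?_))
      ring
    have h2 : ∀ j, ∑ v, co p f.1 c v * p v j = c j := fun j => congrFun (co_lc hF f.2 c) j
    calc ∑ j, (∑ v, co p f.1 c v * x v j) * (∑ v, co p f.1 c v * x v j)
        = ∑ u, ∑ v, co p f.1 c u * co p f.1 c v * ∑ j, x u j * x v j := key n x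
      _ = ∑ u, ∑ v, co p f.1 c u * co p f.1 c v * ∑ j, p u j * p v j :=
        Finset.sum_congr rfl (fun u _ => Finset.sum_congr rfl (fun v _ => hcl u v))
      _ = ∑ j, (∑ v, co p f.1 c v * p v j) * (∑ v, co p f.1 c v * p v j) := (key (Fin d) p).symm
      _ = ∑ j, c j * c j := Finset.sum_congr rfl (fun j _ => by rw [h2 j])
  dual := hd

/-- The inequality for a fan with a linearly independent system with the same inner products. -/
theorem kappa_nonneg {k : ℕ} {G : SimpleGraph V} {p : V → Fin (2 * k) → K} (hF : IsFan G p)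
    {rk : Finset V → ℕ} (hr : IsShelling G (2 * k) rk) (x : V → n → K)
    (hx : ∀ u v, (u = v ∨ G.Adj u v) → ∑ j, x u j * x v j = ∑ j, p u j * p v j)
    (hd : ∀ v, ∃ u : n → K, ∀ v', ∑ j, u j * x v' j = if v' = v then 1 else 0) :
    0 ≤ (-1 : ℚ) ^ k * kappa G univ := by
  obtain ⟨c, hc⟩ := exists_gen hF
  obtain ⟨δ, h0, h1⟩ := exists_wt hF
  have h := core (mkOk hF hr hc h0 h1 x hx hd) (k := k) rfl
  rw [kappa_fan hF hr]
  have h2 : (0 : ℚ) ≤ (((-1 : ℤ) ^ k * ∑ f : {f : Finset V // G.IsNClique (2 * k) f},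
      (-1 : ℤ) ^ (Rs G (2 * k) rk f.1).card : ℤ) : ℚ) := by exact_mod_cast h
  push_cast at h2 ⊢
  have h3 : (0 : ℚ) ≤ (1 / 2) ^ (2 * k) := by positivity
  calc (0 : ℚ) ≤ (1 / 2) ^ (2 * k) * ((-1) ^ k * ∑ f : {f : Finset V // G.IsNClique (2 * k) f},
      (-1 : ℚ) ^ (Rs G (2 * k) rk f.1).card) := mul_nonneg h3 h2
    _ = _ := by ring

/-- The real case: a shortening of the vectors of the vertices. -/
theorem kappa_nonneg_real {k N : ℕ} {G : SimpleGraph V} {p : V → Fin (2 * k) → ℝ}
    (hF : IsFan G p) {rk : Finset V → ℕ} (hr : IsShelling G (2 * k) rk) (y : V → Fin N → ℝ)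
    (h1 : ∀ v, ∑ j, y v j * y v j < ∑ j, p v j * p v j)
    (h2 : ∀ u v, G.Adj u v → ∑ j, y u j * y v j = ∑ j, p u j * p v j) :
    0 ≤ (-1 : ℚ) ^ k * kappa G univ := by
  set e : V → ℝ := fun v => Real.sqrt (∑ j, p v j * p v j - ∑ j, y v j * y v j) with he
  have he0 : ∀ v, 0 < ∑ j, p v j * p v j - ∑ j, y v j * y v j := fun v => sub_pos.2 (h1 v)
  have he1 : ∀ v, 0 < e v := fun v => Real.sqrt_pos.2 (he0 v)
  have he2 : ∀ v, e v * e v = ∑ j, p v j * p v j - ∑ j, y v j * y v j :=
    fun v => Real.mul_self_sqrt (he0 v).le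
  refine kappa_nonneg hF hr (n := Fin N ⊕ V)
    (fun v j => Sum.elim (y v) (fun u => if u = v then e v else 0) j) ?_ ?_
  · intro u v huv
    rw [Fintype.sum_sum_type]
    simp only [Sum.elim_inl, Sum.elim_inr]
    by_cases h : u = v
    · subst h
      have h3 : ∑ x : V, (if x = u then e u else 0) * (if x = u then e u else 0) = e u * e u := by
        rw [Finset.sum_eq_single u]
        · simp
        · intro b _ hb; simp [hb]
        · intro hb; exact absurd (mem_univ u) hb
      rw [h3, he2]; ring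
    · have h3 : ∑ x : V, (if x = u then e u else 0) * (if x = v then e v else 0) = 0 := by
        apply Finset.sum_eq_zero
        intro b _
        by_cases hb : b = u
        · subst hb; simp [h]
        · simp [hb]
      rw [h3, add_zero]
      rcases huv with huv | huv
      · exact absurd huv h
      · exact h2 u v huv
  · intro v
    refine ⟨fun j => Sum.elim (fun _ => 0) (fun u => if u = v then (e v)⁻¹ else 0) j, ?_⟩
    intro v'
    rw [Fintype.sum_sum_type]
    simp only [Sum.elim_inl, Sum.elim_inr, zero_mul, Finset.sum_const_zero, zero_add]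
    rw [Finset.sum_eq_single v]
    · by_cases h : v' = v
      · subst h; simp [inv_mul_cancel₀ (he1 v').ne']
      · simp [h, Ne.symm h]
    · intro b _ hb; simp [hb]
    · intro hb; exact absurd (mem_univ v) hb

end Pool.Agent.Helper82.TI.Fan

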