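import Pool.Agent.Helper82.TI.Fan.Defs

/-!
# Project TI: sums over the faces from a partition into intervals

PROOF. By hu every clique σ ⊇ τ lies in exactly one interval {σ : T f ∪ τ ⊆ σ ⊆ f}, f a facet
containing τ (σ ⊇ τ, σ ⊆ f, T f ⊆ σ). So the right side is the sum over the facets f ⊇ τ of
∑_{T f ∪ τ ⊆ σ ⊆ f} x^#(σ \ τ). Write σ = (T f ∪ τ) ∪ S, S ⊆ f \ (T f ∪ τ):
#(σ \ τ) = #(T f \ τ) + #S, ∑_S x^#S = (1 + x)^#(f \ (T f ∪ τ)) (Finset.sum_pow_mul_eq_add_pow or
Finset.prod_add / powerset), and #(f \ (T f ∪ τ)) = d - #τ - #(T f \ τ).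
(Subsets of a clique are cliques.)
-/

open Finset

namespace Pool.Agent.Helper82.TI.Fan

variable {V : Type} [Fintype V] [DecidableEq V] {d : ℕ} {G : SimpleGraph V}

open scoped Classical in
theorem part_sum {R : Type} [CommRing R] (x : R) {τ : Finset V} (T : Finset V → Finset V)
    (hT : ∀ f, G.IsNClique d f → T f ⊆ f)
    (hu : ∀ σ : Finset V, G.IsClique (σ : Set V) → τ ⊆ σ →
      ∃! f : Finset V, G.IsNClique d f ∧ σ ⊆ f ∧ T f ⊆ σ) :
    ∑ f ∈ univ.filter (fun f : Finset V => G.IsNClique d f ∧ τ ⊆ f),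
      x ^ (T f \ τ).card * (1 + x) ^ (d - τ.card - (T f \ τ).card) =
    ∑ σ ∈ univ.filter (fun σ : Finset V => G.IsClique (σ : Set V) ∧ τ ⊆ σ),
      x ^ (σ \ τ).card := by
  have key : ∀ f ∈ univ.filter (fun f : Finset V => G.IsNClique d f ∧ τ ⊆ f),
      x ^ (T f \ τ).card * (1 + x) ^ (d - τ.card - (T f \ τ).card) =
      ∑ σ ∈ Finset.Icc (T f ∪ τ) f, x ^ (σ \ τ).card := by
    intro f hf
    obtain ⟨hf1, hf2⟩ := (Finset.mem_filter.1 hf).2
    have hA : T f ∪ τ ⊆ f := Finset.union_subset (hT f hf1) hf2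
    rw [Finset.Icc_eq_image_powerset hA, Finset.sum_image]
    · have h1 : ∀ S ∈ (f \ (T f ∪ τ)).powerset, x ^ ((T f ∪ τ ∪ S) \ τ).card =
          x ^ (T f \ τ).card * (x ^ S.card * 1 ^ ((f \ (T f ∪ τ)).card - S.card)) := by
        intro S hS
        rw [Finset.mem_powerset] at hS
        have hS1 : ∀ z ∈ S, z ∉ T f ∧ z ∉ τ := by
          intro z hz
          have h3 := (Finset.mem_sdiff.1 (hS hz)).2
          exact ⟨fun h => h3 (Finset.mem_union_left _ h), fun h => h3 (Finset.mem_union_right _ h)⟩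
        have h2 : (T f ∪ τ ∪ S) \ τ = (T f \ τ) ∪ S := by
          ext z
          rw [Finset.mem_sdiff, Finset.mem_union, Finset.mem_union, Finset.mem_union,
            Finset.mem_sdiff]
          constructor
          · rintro ⟨(h | h) | h, h'⟩
            · exact Or.inl ⟨h, h'⟩
            · exact absurd h h'
            · exact Or.inr h
          · rintro (⟨h, h'⟩ | h)
            · exact ⟨Or.inl (Or.inl h), h'⟩
            · exact ⟨Or.inr h, (hS1 z h).2⟩
        have h3 : Disjoint (T f \ τ) S := by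
          rw [Finset.disjoint_left]
          intro z hz hz'
          exact (hS1 z hz').1 (Finset.mem_sdiff.1 hz).1
        rw [h2, Finset.card_union_of_disjoint h3, pow_add, one_pow, mul_one]
      rw [Finset.sum_congr rfl h1, ← Finset.mul_sum, Finset.sum_pow_mul_eq_add_pow,
        add_comm x 1]
      congr 2
      have h4 : (f \ (T f ∪ τ)).card + (T f ∪ τ).card = f.card :=
        Finset.card_sdiff_add_card_eq_card hA
      have h5 : (T f \ τ).card + τ.card = (T f ∪ τ).card := Finset.card_sdiff_add_card (T f) τ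
      have h6 : f.card = d := hf1.card_eq
      omega
    · intro S hS S' hS' h
      have hS1 := Finset.mem_powerset.1 (Finset.mem_coe.1 hS)
      have hS2 := Finset.mem_powerset.1 (Finset.mem_coe.1 hS')
      have h' : T f ∪ τ ∪ S = T f ∪ τ ∪ S' := h
      ext z
      constructor
      · intro hz
        have h3 : z ∈ T f ∪ τ ∪ S' := by
          rw [← h']
          exact Finset.mem_union_right _ hz
        exact (Finset.mem_union.1 h3).resolve_left (Finset.mem_sdiff.1 (hS1 hz)).2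
      · intro hz
        have h3 : z ∈ T f ∪ τ ∪ S := by
          rw [h']
          exact Finset.mem_union_right _ hz
        exact (Finset.mem_union.1 h3).resolve_left (Finset.mem_sdiff.1 (hS2 hz)).2
  rw [Finset.sum_congr rfl key, ← Finset.sum_biUnion]
  · refine Finset.sum_congr ?_ (fun _ _ => rfl)
    ext σ
    rw [Finset.mem_biUnion, Finset.mem_filter]
    constructor
    · rintro ⟨f, hf, hσ⟩
      obtain ⟨hf1, hf2⟩ := (Finset.mem_filter.1 hf).2
      obtain ⟨h1, h2⟩ := Finset.mem_Icc.1 hσ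
      refine ⟨Finset.mem_univ _, hf1.isClique.subset (Finset.coe_subset.2 h2), ?_⟩
      exact Finset.union_subset_right h1
    · rintro ⟨_, h1, h2⟩
      obtain ⟨f, ⟨hf1, hf2, hf3⟩, _⟩ := hu σ h1 h2
      refine ⟨f, Finset.mem_filter.2 ⟨Finset.mem_univ _, hf1, h2.trans hf2⟩, ?_⟩
      exact Finset.mem_Icc.2 ⟨Finset.union_subset hf3 h2, hf2⟩
  · intro f hf g hg hfg
    obtain ⟨hf1, _⟩ := (Finset.mem_filter.1 (Finset.mem_coe.1 hf)).2
    obtain ⟨hg1, _⟩ := (Finset.mem_filter.1 (Finset.mem_coe.1 hg)).2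
    rw [Function.onFun, Finset.disjoint_left]
    intro σ h1 h2
    obtain ⟨h3, h4⟩ := Finset.mem_Icc.1 h1
    obtain ⟨h5, h6⟩ := Finset.mem_Icc.1 h2
    have hσ : G.IsClique (σ : Set V) := hf1.isClique.subset (Finset.coe_subset.2 h4)
    obtain ⟨k, _, hk⟩ := hu σ hσ (Finset.union_subset_right h3)
    exact hfg ((hk f ⟨hf1, h4, Finset.union_subset_left h3⟩).trans
      (hk g ⟨hg1, h6, Finset.union_subset_left h5⟩).symm)

end Pool.Agent.Helper82.TI.Fan
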