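import Pool.Agent.Helper82.TI.Fan.Germ

/-!
# Project TI: generic points, the partition of the faces, ridges

PROOFS. EXISTS_GEN: the subspaces {lc a : a supported on σ}, σ a clique with #σ < d, are proper
(dimension ≤ #σ < d) and finitely many; K is infinite (ordered field), so they do not cover
Fin d → K (Subspace.biUnion_ne_univ_of_top_notMem or similar). GEN_NEG: replace a by -a. CO_NE: if
co f c v = 0 then co f c is supported on f.erase v, a clique with d - 1 < d elements (d ≥ 1 as
v ∈ f), and lc (co f c) = c. PART, existence: germ with r = lc (indicator of σ), u = c gives g, a, b;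
a = indicator of σ (uniqueness in IsFan for r), so σ ⊆ g; c = lc b with b supported on the clique g,
so #g ≥ d (Gen), = d (card_le); b = co g c (co_unique); for v ∈ g \ σ: a v = 0 so b v ≥ 0 and ≠ 0.
Uniqueness: let f, g both satisfy the property. Take M ∈ K with M + co f c v > 0 and M + co g c v > 0
for all v (finite maximum). Then M • 1_σ + co f c is nonnegative, nonzero exactly on f, and so for g,
and lc of both is M r + c. Uniqueness in IsFan: equal, so f = g.
RIDGE: r = lc (indicator of f.erase v), u = - p v; germ: g ⊇ f.erase v (as before), b supported on g,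
lc b = - p v, b w ≥ 0 for w ∉ f.erase v. If v ∈ g then f ⊆ g so g = f by card_le, and b = - (indicator
of v) by lin, b v = -1 < 0: contradiction. g ≠ f.erase v, otherwise b + indicator of v contradicts lin
for f. So #g ≥ d, = d, g = insert w (f.erase v) with w ∉ f; b w ≠ 0 (else the same contradiction), so
b w > 0, and p w = lc ((indicator w stuff)): from lc b = - p v: p w = (1/b w) (- p v - ∑_{u ≠ w}
b u p u), so co f (p w) v = - 1/b w < 0 (co_unique). Uniqueness: let g' be a d-clique ⊇ f.erase v,
g' ≠ f, so g' = insert w' (f.erase v), w' ∉ f. If w' ≠ w: let β' = co f (p w') v. β' ≠ 0 (else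
lin for g' fails, since p w' would be a combination of f.erase v). If β' > 0: for large M,
M • 1_{f.erase v} + co f (p w') ≥ 0 supported on f and M • 1_{f.erase v} + indicator of w' ≥ 0
supported on g' have the same lc: equal by IsFan, but at w' they are 0 and 1. If β' < 0: p w' in terms
of g = insert w (f.erase v): coefficient at w is β' / co f (p w) v > 0: the same argument with g in
place of f gives a contradiction.
-/

open Finset

namespace Pool.Agent.Helper82.TI.Fan

variable {K V : Type} [Field K] [LinearOrder K] [IsStrictOrderedRing K] [Fintype V]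
  [DecidableEq V] {d : ℕ} {G : SimpleGraph V} {p : V → Fin d → K}

omit [LinearOrder K] [IsStrictOrderedRing K] [DecidableEq V] in
private theorem lc_sub (a b : V → K) : lc p (a - b) = lc p a - lc p b := by
  funext j; simp [lc, sub_mul, Finset.sum_sub_distrib]

omit [LinearOrder K] [IsStrictOrderedRing K] [Fintype V] [DecidableEq V] in
private theorem clique_supp {σ : Finset V} (hσ : G.IsClique (σ : Set V)) {b : V → K}
    (hb : ∀ v, v ∉ σ → b v = 0) : G.IsClique {v | b v ≠ 0} := by
  refine SimpleGraph.IsClique.subset ?_ hσ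
  intro v hv
  by_contra h
  exact hv (hb v (fun h' => h (Finset.mem_coe.2 h')))

/-- The indicator of `v`. -/
private def e1 (K : Type) [Field K] (v : V) : V → K := fun w => if w = v then 1 else 0

omit [LinearOrder K] [IsStrictOrderedRing K] in
private theorem lc_e1 (v : V) : lc p (e1 K v) = p v := by
  funext j
  simp [lc, e1]

omit [LinearOrder K] [IsStrictOrderedRing K] [Fintype V] in
private theorem e1_self (v : V) : e1 K v v = 1 := by simp [e1]

omit [LinearOrder K] [IsStrictOrderedRing K] [Fintype V] in
private theorem e1_ne {v w : V} (h : w ≠ v) : e1 K v w = 0 := by simp [e1, h]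

/-- The indicator of `σ`. -/
private def eS (K : Type) [Field K] (σ : Finset V) : V → K := fun w => if w ∈ σ then 1 else 0

omit [LinearOrder K] [IsStrictOrderedRing K] [Fintype V] in
private theorem eS_mem {σ : Finset V} {w : V} (h : w ∈ σ) : eS K σ w = 1 := by simp [eS, h]

omit [LinearOrder K] [IsStrictOrderedRing K] [Fintype V] in
private theorem eS_nmem {σ : Finset V} {w : V} (h : w ∉ σ) : eS K σ w = 0 := by simp [eS, h]

private theorem lc_mem_span {σ : Finset V} {a : V → K} (ha : ∀ v, v ∉ σ → a v = 0) :
    lc p a ∈ Submodule.span K ((σ.image p : Finset (Fin d → K)) : Set (Fin d → K)) := by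
  have h : lc p a = ∑ v ∈ σ, a v • p v := by
    funext j
    simp only [lc, Finset.sum_apply, Pi.smul_apply, smul_eq_mul]
    exact (Finset.sum_subset (Finset.subset_univ σ) (fun v _ hv => by simp [ha v hv])).symm
  rw [h]
  refine Submodule.sum_mem _ (fun v hv => Submodule.smul_mem _ _ (Submodule.subset_span ?_))
  exact Finset.mem_coe.2 (Finset.mem_image_of_mem p hv)

theorem exists_gen (hF : IsFan G p) : ∃ c : Fin d → K, Gen G p c := by
  classical
  let S : Finset (Submodule K (Fin d → K)) :=
    ((Finset.univ : Finset (Finset V)).filter (fun σ => σ.card < d)).image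
      (fun σ => Submodule.span K ((σ.image p : Finset (Fin d → K)) : Set (Fin d → K)))
  have hS : (⊤ : Submodule K (Fin d → K)) ∉ S := by
    intro h
    obtain ⟨σ, hσ, he⟩ := Finset.mem_image.1 h
    have h1 := finrank_span_finset_le_card (R := K) (σ.image p)
    rw [Set.finrank] at h1
    rw [he, finrank_top, Module.finrank_fin_fun] at h1
    have h2 := Finset.card_image_le (s := σ) (f := p)
    have h3 := (Finset.mem_filter.1 hσ).2
    omega
  have hne := Subspace.biUnion_ne_univ_of_top_notMem hS
  obtain ⟨c, hc⟩ := (Set.ne_univ_iff_exists_notMem _).1 hne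
  refine ⟨c, fun σ _ hcard a ha he => hc ?_⟩
  rw [Set.mem_iUnion₂]
  refine ⟨_, Finset.mem_image_of_mem _ (Finset.mem_filter.2 ⟨Finset.mem_univ σ, hcard⟩), ?_⟩
  rw [SetLike.mem_coe, ← he]
  exact lc_mem_span ha

theorem gen_neg {c : Fin d → K} (hc : Gen G p c) : Gen G p (-c) := by
  intro σ hσ hcard a ha he
  refine hc σ hσ hcard (-a) (fun v hv => by simp [ha v hv]) ?_
  have h : lc p (-a) = - lc p a := by
    funext j; simp [lc]
  rw [h, he, neg_neg]

theorem co_ne (hF : IsFan G p) {f : Finset V} (hf : G.IsNClique d f) {c : Fin d → K}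
    (hc : Gen G p c) {v : V} (hv : v ∈ f) : co p f c v ≠ 0 := by
  intro h0
  refine hc (f.erase v) ?_ ?_ (co p f c) ?_ (co_lc hF hf c)
  · exact SimpleGraph.IsClique.subset (by simp) hf.isClique
  · rw [← hf.card_eq]
    exact Finset.card_erase_lt_of_mem hv
  · intro w hw
    by_cases hwv : w = v
    · rw [hwv]; exact h0
    · exact co_supp p f c (fun hwf => hw (Finset.mem_erase.2 ⟨hwv, hwf⟩))

private theorem germ_sub (hF : IsFan G p) {σ : Finset V} (hσ : G.IsClique (σ : Set V))
    (u : Fin d → K) :
    ∃ g : Finset V, G.IsClique (g : Set V) ∧ σ ⊆ g ∧ ∃ b : V → K, (∀ v, v ∉ g → b v = 0) ∧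
      (∀ v, v ∉ σ → 0 ≤ b v) ∧ lc p b = u := by
  obtain ⟨g, hg, a, b, hag, hbg, ha0, hab, hla, hlb⟩ := germ hF (lc p (eS K σ)) u
  obtain ⟨e, -, hu⟩ := hF (lc p (eS K σ))
  have h1 := hu a ⟨ha0, clique_supp hg hag, hla⟩
  have h2 := hu (eS K σ) ⟨fun v => by unfold eS; split_ifs <;> simp,
    clique_supp hσ (fun v hv => eS_nmem hv), rfl⟩
  have h3 : a = eS K σ := h1.trans h2.symm
  refine ⟨g, hg, fun v hv => ?_, b, hbg, fun v hv => hab v ?_, hlb⟩
  · by_contra hvg
    have h4 := hag v hvg
    rw [h3, eS_mem hv] at h4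
    exact one_ne_zero h4
  · rw [h3, eS_nmem hv]

private theorem big (hF : IsFan G p) {σ f g : Finset V} (hf : G.IsClique (f : Set V))
    (hg : G.IsClique (g : Set V)) (hσf : σ ⊆ f) (hσg : σ ⊆ g) {a b : V → K}
    (ha : ∀ v, v ∉ f → a v = 0) (hb : ∀ v, v ∉ g → b v = 0) (ha0 : ∀ v, v ∉ σ → 0 ≤ a v)
    (hb0 : ∀ v, v ∉ σ → 0 ≤ b v) (h : lc p a = lc p b) : a = b := by
  let M : K := ∑ v, (|a v| + |b v|)
  have hM : ∀ v, |a v| ≤ M ∧ |b v| ≤ M := by
    intro v
    have h1 : |a v| + |b v| ≤ M :=
      Finset.single_le_sum (f := fun v => |a v| + |b v|)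
        (fun w _ => add_nonneg (abs_nonneg _) (abs_nonneg _)) (Finset.mem_univ v)
    have h2 := abs_nonneg (a v)
    have h3 := abs_nonneg (b v)
    constructor <;> linarith
  obtain ⟨e, -, hu⟩ := hF (lc p (M • eS K σ + a))
  have h1 := hu (M • eS K σ + a) ⟨?_, clique_supp hf ?_, rfl⟩
  · have h2 := hu (M • eS K σ + b) ⟨?_, clique_supp hg ?_, ?_⟩
    · have h3 := h1.trans h2.symm
      exact add_left_cancel h3
    · intro v
      by_cases hv : v ∈ σ
      · simp only [Pi.add_apply, Pi.smul_apply, smul_eq_mul, eS_mem hv, mul_one]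
        have := (hM v).2
        have := neg_abs_le (b v)
        linarith
      · simp only [Pi.add_apply, Pi.smul_apply, smul_eq_mul, eS_nmem hv, mul_zero, zero_add]
        exact hb0 v hv
    · intro v hv
      simp only [Pi.add_apply, Pi.smul_apply, smul_eq_mul,
        eS_nmem (fun hv' => hv (hσg hv')), mul_zero, zero_add, hb v hv]
    · rw [lc_add, lc_add, h]
  · intro v
    by_cases hv : v ∈ σ
    · simp only [Pi.add_apply, Pi.smul_apply, smul_eq_mul, eS_mem hv, mul_one]
      have := (hM v).1
      have := neg_abs_le (a v)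
      linarith
    · simp only [Pi.add_apply, Pi.smul_apply, smul_eq_mul, eS_nmem hv, mul_zero, zero_add]
      exact ha0 v hv
  · intro v hv
    simp only [Pi.add_apply, Pi.smul_apply, smul_eq_mul,
      eS_nmem (fun hv' => hv (hσf hv')), mul_zero, zero_add, ha v hv]

theorem part (hF : IsFan G p) {c : Fin d → K} (hc : Gen G p c) {σ : Finset V}
    (hσ : G.IsClique (σ : Set V)) :
    ∃! f : Finset V, G.IsNClique d f ∧ σ ⊆ f ∧ ∀ v ∈ f, v ∉ σ → 0 < co p f c v := by
  obtain ⟨g, hg, hσg, b, hbg, hb0, hb⟩ := germ_sub hF hσ c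
  have hcard : g.card = d := by
    refine le_antisymm (card_le hF hg) ?_
    by_contra hlt
    exact hc g hg (not_le.1 hlt) b hbg hb
  have hgn : G.IsNClique d g := ⟨hg, hcard⟩
  have hbc : co p g c = b := by
    rw [← hb]; exact co_unique hF hg hbg
  refine ⟨g, ⟨hgn, hσg, fun v hv hvσ => ?_⟩, ?_⟩
  · refine lt_of_le_of_ne ?_ (co_ne hF hgn hc hv).symm
    rw [hbc]; exact hb0 v hvσ
  · rintro f ⟨hf, hσf, hpos⟩
    have hab : co p f c = b := by
      refine big hF hf.isClique hg hσf hσg (fun v hv => co_supp p f c hv) hbg (fun v hv => ?_)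
        hb0 (by rw [co_lc hF hf, hb])
      by_cases hvf : v ∈ f
      · exact (hpos v hvf hv).le
      · rw [co_supp p f c hvf]
    have hsub : f ⊆ g := by
      intro v hv
      by_contra hvg
      have h1 := co_ne hF hf hc hv
      rw [hab, hbg v hvg] at h1
      exact h1 rfl
    exact Finset.eq_of_subset_of_card_le hsub (by rw [hcard, hf.card_eq])

theorem ridge (hF : IsFan G p) {f : Finset V} (hf : G.IsNClique d f) {v : V}
    (hv : v ∈ f) :
    ∃ w, w ∉ f ∧ G.IsNClique d (insert w (f.erase v)) ∧ co p f (p w) v < 0 ∧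
      ∀ g : Finset V, G.IsNClique d g → f.erase v ⊆ g → g = f ∨ g = insert w (f.erase v) := by
  have hσ : G.IsClique ((f.erase v : Finset V) : Set V) :=
    SimpleGraph.IsClique.subset (by simp) hf.isClique
  have hσc : (f.erase v).card + 1 = d := by
    rw [Finset.card_erase_add_one hv, hf.card_eq]
  obtain ⟨g, hg, hσg, b, hbg, hb0, hb⟩ := germ_sub hF hσ (-p v)
  have hvσ : v ∉ f.erase v := by simp
  -- no combination of the vectors of `f` with coefficient `0` or more at `v` is `- p v`
  have key : ∀ b' : V → K, (∀ u, u ∉ f → b' u = 0) → lc p b' = -p v → b' v = -1 := by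
    intro b' hb' hlc
    have h1 : b' + e1 K v = 0 := by
      refine lin hF hf.isClique (fun u hu => ?_) ?_
      · rw [Pi.add_apply, hb' u hu, e1_ne (fun h : u = v => hu (by rw [h]; exact hv)), add_zero]
      · rw [lc_add, hlc, lc_e1, neg_add_cancel]
    have h2 := congrFun h1 v
    rw [Pi.add_apply, e1_self, Pi.zero_apply] at h2
    linarith
  have hvg : v ∉ g := by
    intro hvg
    have hfg : f ⊆ g := by
      intro u hu
      by_cases huv : u = v
      · rw [huv]; exact hvg
      · exact hσg (Finset.mem_erase.2 ⟨huv, hu⟩)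
    have hfg' : f = g :=
      Finset.eq_of_subset_of_card_le hfg (by rw [hf.card_eq]; exact card_le hF hg)
    have h1 := key b (fun u hu => hbg u (hfg' ▸ hu)) hb
    have h2 := hb0 v hvσ
    rw [h1] at h2
    linarith
  -- `g` has an element `w` outside the ridge
  have hex : ∃ w ∈ g, w ∉ f.erase v ∧ b w ≠ 0 := by
    by_contra hcon
    push Not at hcon
    have h1 := key b (fun u hu => ?_) hb
    · rw [hbg v hvg] at h1
      linarith
    · by_cases hug : u ∈ g
      · exact hcon u hug (fun h => hu (Finset.mem_of_mem_erase h))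
      · exact hbg u hug
  obtain ⟨w, hwg, hwσ, hbw⟩ := hex
  have hwv : w ≠ v := fun h => hvg (h ▸ hwg)
  have hwf : w ∉ f := fun h => hwσ (Finset.mem_erase.2 ⟨hwv, h⟩)
  have hbw0 : 0 < b w := lt_of_le_of_ne (hb0 w hwσ) hbw.symm
  have hgi : insert w (f.erase v) = g := by
    refine Finset.eq_of_subset_of_card_le (Finset.insert_subset hwg hσg) ?_
    rw [Finset.card_insert_of_notMem hwσ, hσc]
    exact card_le hF hg
  have hgn : G.IsNClique d g := by
    refine ⟨hg, ?_⟩
    rw [← hgi, Finset.card_insert_of_notMem hwσ, hσc]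
  have hβ : co p f (p w) v < 0 := by
    have h1 : (b - b w • e1 K w) + b w • co p f (p w) + e1 K v = 0 := by
      refine lin hF hf.isClique (fun u hu => ?_) ?_
      · simp only [Pi.add_apply, Pi.sub_apply, Pi.smul_apply, smul_eq_mul,
          co_supp p f (p w) hu, mul_zero, add_zero]
        rw [e1_ne (fun h : u = v => hu (by rw [h]; exact hv)), add_zero]
        by_cases huw : u = w
        · rw [huw, e1_self, mul_one, sub_self]
        · rw [e1_ne huw, mul_zero, sub_zero]
          refine hbg u (fun hug => ?_)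
          rw [← hgi] at hug
          rcases Finset.mem_insert.1 hug with h | h
          · exact huw h
          · exact hu (Finset.mem_of_mem_erase h)
      · rw [lc_add, lc_add, lc_sub, lc_smul, lc_smul, lc_e1, lc_e1, co_lc hF hf, hb,
          sub_add_cancel, neg_add_cancel]
    have h2 := congrFun h1 v
    simp only [Pi.add_apply, Pi.sub_apply, Pi.smul_apply, smul_eq_mul, Pi.zero_apply,
      e1_self, hbg v hvg, e1_ne hwv.symm, mul_zero, sub_zero, zero_add] at h2
    have h3 : b w * co p f (p w) v = -1 := by linarith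
    by_contra hge
    have h4 : 0 ≤ b w * co p f (p w) v := mul_nonneg hbw0.le (not_lt.1 hge)
    rw [h3] at h4
    linarith
  refine ⟨w, hwf, by rw [hgi]; exact hgn, hβ, ?_⟩
  intro g' hg' hσg'
  rw [hgi]
  by_contra hcon
  push Not at hcon
  obtain ⟨hg'f, hg'g⟩ := hcon
  -- the element `w'` of `g'` outside the ridge
  obtain ⟨w', hw'g, hw'σ⟩ : ∃ w' ∈ g', w' ∉ f.erase v := by
    by_contra hc2
    push Not at hc2
    have h1 := Finset.card_le_card (show g' ⊆ f.erase v from hc2)
    rw [hg'.card_eq] at h1
    omega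
  have hg'i : insert w' (f.erase v) = g' := by
    refine Finset.eq_of_subset_of_card_le (Finset.insert_subset hw'g hσg') ?_
    rw [Finset.card_insert_of_notMem hw'σ, hσc, hg'.card_eq]
  have hw'v : w' ≠ v := by
    intro h
    apply hg'f
    rw [← hg'i, h, Finset.insert_erase hv]
  have hw'w : w' ≠ w := by
    intro h
    apply hg'g
    rw [← hg'i, h, hgi]
  have hw'f : w' ∉ f := fun h => hw'σ (Finset.mem_erase.2 ⟨hw'v, h⟩)
  have hw'ng : w' ∉ g := by
    rw [← hgi]
    intro h
    rcases Finset.mem_insert.1 h with h | h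
    · exact hw'w h
    · exact hw'σ h
  have he1 : ∀ u, u ∉ g' → e1 K w' u = 0 := fun u hu => e1_ne (fun h : u = w' => hu (by rw [h]; exact hw'g))
  have he10 : ∀ u, 0 ≤ e1 K w' u := by
    intro u; unfold e1; split_ifs <;> simp
  rcases lt_trichotomy (co p f (p w') v) 0 with hneg | h0 | hpos
  · -- negative
    have ht : 0 < co p f (p w') v / co p f (p w) v := div_pos_of_neg_of_neg hneg hβ
    have hv0 : co p f (p w') v - co p f (p w') v / co p f (p w) v * co p f (p w) v = 0 := by
      rw [div_mul_cancel₀ _ hβ.ne, sub_self]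
    set t : K := co p f (p w') v / co p f (p w) v with htdef
    have h1 : (co p f (p w') - t • co p f (p w)) + t • e1 K w = e1 K w' := by
      refine big hF hg hg'.isClique hσg hσg' (fun u hu => ?_) he1 (fun u hu => ?_)
        (fun u _ => he10 u) ?_
      · simp only [Pi.add_apply, Pi.sub_apply, Pi.smul_apply, smul_eq_mul]
        rw [e1_ne (fun h : u = w => hu (by rw [h]; exact hwg)), mul_zero, add_zero]
        by_cases huv : u = v
        · rw [huv]; exact hv0
        · have huf : u ∉ f := fun h => hu (hσg (Finset.mem_erase.2 ⟨huv, h⟩))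
          rw [co_supp p f _ huf, co_supp p f _ huf, mul_zero, sub_zero]
      · simp only [Pi.add_apply, Pi.sub_apply, Pi.smul_apply, smul_eq_mul]
        have h2 : 0 ≤ t * e1 K w u := by
          refine mul_nonneg ht.le ?_
          unfold e1; split_ifs <;> simp
        by_cases huv : u = v
        · rw [huv] at h2 ⊢
          rw [hv0, zero_add]; exact h2
        · have huf : u ∉ f := fun h => hu (Finset.mem_erase.2 ⟨huv, h⟩)
          rw [co_supp p f _ huf, co_supp p f _ huf, mul_zero, sub_zero, zero_add]
          exact h2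
      · rw [lc_add, lc_sub, lc_smul, lc_smul, lc_e1, lc_e1, co_lc hF hf, co_lc hF hf,
          sub_add_cancel]
    have h2 := congrFun h1 w'
    simp only [Pi.add_apply, Pi.sub_apply, Pi.smul_apply, smul_eq_mul, co_supp p f _ hw'f,
      e1_ne hw'w, e1_self, mul_zero, sub_zero, add_zero] at h2
    exact zero_ne_one h2
  · -- zero
    have h1 : co p f (p w') - e1 K w' = 0 := by
      refine lin hF hg'.isClique (fun u hu => ?_) ?_
      · rw [Pi.sub_apply, he1 u hu, sub_zero]
        by_cases huv : u = v
        · rw [huv]; exact h0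
        · exact co_supp p f _ (fun h => hu (hσg' (Finset.mem_erase.2 ⟨huv, h⟩)))
      · rw [lc_sub, lc_e1, co_lc hF hf, sub_self]
    have h2 := congrFun h1 w'
    rw [Pi.sub_apply, co_supp p f _ hw'f, e1_self, Pi.zero_apply] at h2
    linarith
  · -- positive
    have h1 : co p f (p w') = e1 K w' := by
      refine big hF hf.isClique hg'.isClique (Finset.erase_subset v f) hσg'
        (fun u hu => co_supp p f _ hu) he1 (fun u hu => ?_) (fun u _ => he10 u) ?_
      · by_cases huv : u = v
        · rw [huv]; exact hpos.le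
        · rw [co_supp p f _ (fun h => hu (Finset.mem_erase.2 ⟨huv, h⟩))]
      · rw [lc_e1, co_lc hF hf]
    have h2 := congrFun h1 w'
    rw [co_supp p f _ hw'f, e1_self] at h2
    exact zero_ne_one h2

end Pool.Agent.Helper82.TI.Fan
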