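import Pool.Agent.Helper82.TI.Fan.Part
import Pool.Agent.Helper82.TI.Fan.PSum

/-!
# Project TI: shellings of a complete fan and their reversal

PROOFS. RS_LE: if rk g < rk f, IsShelling.shell gives v ∈ f, v ∉ g and h, so v ∈ Rs f but v ∉ g.
RS_PART: facets containing σ exist (part, with any generic c from exists_gen). Let f0 be the one of
least rank. Rs f0 ⊆ σ: if v ∈ Rs f0, v ∉ σ, then h ⊇ f0.erase v ⊇ σ has smaller rank. Uniqueness: if
σ ⊆ f, Rs f ⊆ σ then Rs f ⊆ f0 and rk f ≤ rk f0 (Rs_le), so f = f0 (inj).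
CS_LE: let τ = f \ Rs f ⊆ g, and let ℓ be the facet of largest rank containing τ (f is one).
(i) ℓ \ τ ⊆ Rs ℓ: for v ∈ ℓ \ τ the other facet h ≠ ℓ containing ℓ.erase v (ridge) contains τ, so
rk h < rk ℓ (maximality and inj), so v ∈ Rs ℓ. (ii) f \ τ = Rs f. (iii) There is only ONE facet h
with τ ⊆ h and h \ τ ⊆ Rs h: by part_sum with x = -1, R = ℤ and T = Rs (Rs_part):
∑_{σ ⊇ τ} (-1)^#(σ \ τ) = ∑_{f' ⊇ τ} (-1)^#(Rs f' \ τ) * 0^(d - #τ - #(Rs f' \ τ))
= (-1)^(d - #τ) * #{f' ⊇ τ : f' \ τ ⊆ Rs f'}; and by part_sum with T f' = {v ∈ f' : co f' c v < 0} for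
a generic c (the partition property is part: for f' ⊇ σ: T f' ⊆ σ iff co f' c v > 0 for all
v ∈ f' \ σ, by co_ne): the same sum is (-1)^(d - #τ) * #{f' ⊇ τ : co f' c v < 0 for all v ∈ f' \ τ},
and this number is 1 by part applied to -c (gen_neg; co f' (-c) = - co f' c by co_unique). So the
number of (iii) is 1 (units ±1). Hence f = ℓ and rk g ≤ rk ℓ = rk f.
-/

open Finset

namespace Pool.Agent.Helper82.TI.Fan

variable {K V : Type} [Field K] [LinearOrder K] [IsStrictOrderedRing K] [Fintype V]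
  [DecidableEq V] {d : ℕ} {G : SimpleGraph V} {p : V → Fin d → K}

omit [DecidableEq V] in
private theorem mem_Rs (rk : Finset V → ℕ) (f : Finset V) (v : V) :
    v ∈ Rs G d rk f ↔
      v ∈ f ∧ ∃ h : Finset V, G.IsNClique d h ∧ rk h < rk f ∧ ∀ u ∈ f, u ≠ v → u ∈ h := by
  classical
  unfold Rs
  rw [Finset.mem_filter]

theorem Rs_sub (rk : Finset V → ℕ) (f : Finset V) : Rs G d rk f ⊆ f := by
  intro v hv
  exact ((mem_Rs rk f v).1 hv).1

theorem Rs_le {rk : Finset V → ℕ} (hr : IsShelling G d rk) {f g : Finset V}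
    (hf : G.IsNClique d f) (hg : G.IsNClique d g) (h : Rs G d rk f ⊆ g) : rk f ≤ rk g := by
  by_contra h'
  obtain ⟨v, hvf, hvg, e, he⟩ := hr.shell f g hf hg (not_le.1 h')
  exact hvg (h ((mem_Rs rk f v).2 ⟨hvf, e, he⟩))

theorem Rs_part (hF : IsFan G p) {rk : Finset V → ℕ} (hr : IsShelling G d rk) {σ : Finset V}
    (hσ : G.IsClique (σ : Set V)) :
    ∃! f : Finset V, G.IsNClique d f ∧ σ ⊆ f ∧ Rs G d rk f ⊆ σ := by
  classical
  obtain ⟨c, hc⟩ := exists_gen hF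
  obtain ⟨f1, ⟨hf1, hs1, _⟩, _⟩ := part hF hc hσ
  obtain ⟨f0, hf0, hmin⟩ := Finset.exists_min_image
    (univ.filter (fun f : Finset V => G.IsNClique d f ∧ σ ⊆ f)) rk
    ⟨f1, by simp [hf1, hs1]⟩
  simp only [Finset.mem_filter, Finset.mem_univ, true_and] at hf0 hmin
  refine ⟨f0, ⟨hf0.1, hf0.2, ?_⟩, ?_⟩
  · intro v hv
    by_contra hvσ
    obtain ⟨hvf, h, hh, hlt, hu⟩ := (mem_Rs rk f0 v).1 hv
    have := hmin h ⟨hh, fun u hu' => hu u (hf0.2 hu') (fun e => hvσ (e ▸ hu'))⟩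
    omega
  · rintro y ⟨hy, hsy, hRy⟩
    have h1 := Rs_le hr hy hf0.1 (hRy.trans hf0.2)
    have h2 := hmin y ⟨hy, hsy⟩
    exact hr.inj y f0 hy hf0.1 (le_antisymm h1 h2)

omit [Fintype V] in
private theorem term_eq {τ f T : Finset V} (hf : G.IsNClique d f) (hτ : τ ⊆ f) (hT : T ⊆ f) :
    (-1 : ℤ) ^ (T \ τ).card * (1 + (-1 : ℤ)) ^ (d - τ.card - (T \ τ).card) =
      if f \ τ ⊆ T then (-1 : ℤ) ^ (d - τ.card) else 0 := by
  have hcf : (f \ τ).card = d - τ.card := by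
    rw [Finset.card_sdiff_of_subset hτ, hf.card_eq]
  have hsub : T \ τ ⊆ f \ τ := Finset.sdiff_subset_sdiff hT (Finset.Subset.refl _)
  split_ifs with h
  · have heq : T \ τ = f \ τ := by
      apply Finset.Subset.antisymm hsub
      intro v hv
      rw [Finset.mem_sdiff] at hv ⊢
      exact ⟨h (Finset.mem_sdiff.2 hv), hv.2⟩
    rw [heq, hcf]
    simp
  · have hlt : (T \ τ).card < d - τ.card := by
      rw [← hcf]
      apply Finset.card_lt_card
      refine ⟨hsub, fun h' => h (fun v hv => ?_)⟩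
      exact (Finset.mem_sdiff.1 (h' hv)).1
    have : d - τ.card - (T \ τ).card ≠ 0 := by omega
    simp [this]

open scoped Classical in
private theorem count_eq {τ : Finset V} (T : Finset V → Finset V)
    (hT : ∀ f, G.IsNClique d f → T f ⊆ f)
    (hu : ∀ σ : Finset V, G.IsClique (σ : Set V) → τ ⊆ σ →
      ∃! f : Finset V, G.IsNClique d f ∧ σ ⊆ f ∧ T f ⊆ σ) :
    ((univ.filter (fun f : Finset V =>
      (G.IsNClique d f ∧ τ ⊆ f) ∧ f \ τ ⊆ T f)).card : ℤ) * (-1) ^ (d - τ.card) =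
    ∑ σ ∈ univ.filter (fun σ : Finset V => G.IsClique (σ : Set V) ∧ τ ⊆ σ),
      (-1 : ℤ) ^ (σ \ τ).card := by
  rw [← part_sum (-1 : ℤ) T hT hu, ← Finset.filter_filter, ← nsmul_eq_mul,
    ← Finset.sum_const, Finset.sum_filter]
  refine Finset.sum_congr rfl (fun f hf => ?_)
  simp only [Finset.mem_filter, Finset.mem_univ, true_and] at hf
  rw [term_eq hf.1 hf.2 (hT f hf.1)]

private theorem co_neg (hF : IsFan G p) {f : Finset V} (hf : G.IsNClique d f)
    (c : Fin d → K) (v : V) : co p f (-c) v = - co p f c v := by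
  have h1 : lc p ((-1 : K) • co p f c) = -c := by
    rw [lc_smul, co_lc hF hf]; simp
  have h2 := co_unique hF hf.isClique (a := (-1 : K) • co p f c)
    (fun v hv => by simp [co_supp p f c hv])
  rw [h1] at h2
  rw [h2]; simp

theorem Cs_le (hF : IsFan G p) {rk : Finset V → ℕ} (hr : IsShelling G d rk)
    {f g : Finset V} (hf : G.IsNClique d f) (hg : G.IsNClique d g)
    (h : f \ Rs G d rk f ⊆ g) : rk g ≤ rk f := by
  classical
  obtain ⟨τ, hτ⟩ : ∃ τ, τ = f \ Rs G d rk f := ⟨_, rfl⟩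
  rw [← hτ] at h
  have hτf : τ ⊆ f := by rw [hτ]; exact Finset.sdiff_subset
  have hτc : G.IsClique (τ : Set V) := hf.isClique.subset (by exact_mod_cast hτf)
  obtain ⟨l, hl, hmax⟩ := Finset.exists_max_image
    (univ.filter (fun f : Finset V => G.IsNClique d f ∧ τ ⊆ f)) rk
    ⟨f, by simp [hf, hτf]⟩
  simp only [Finset.mem_filter, Finset.mem_univ, true_and] at hl hmax
  have hl2 : l \ τ ⊆ Rs G d rk l := by
    intro v hv
    rw [Finset.mem_sdiff] at hv
    obtain ⟨w, hw, hwc, _, _⟩ := ridge hF hl.1 hv.1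
    rw [mem_Rs]
    have hne : rk (insert w (l.erase v)) ≠ rk l := fun e => by
      have := hr.inj _ _ hwc hl.1 e
      exact hw (this ▸ Finset.mem_insert_self _ _)
    have hle := hmax (insert w (l.erase v)) ⟨hwc, fun u hu =>
      Finset.mem_insert_of_mem (Finset.mem_erase.2 ⟨fun e => hv.2 (e ▸ hu), hl.2 hu⟩)⟩
    exact ⟨hv.1, _, hwc, lt_of_le_of_ne hle hne, fun u hu huv =>
      Finset.mem_insert_of_mem (Finset.mem_erase.2 ⟨huv, hu⟩)⟩
  have hf2 : f \ τ ⊆ Rs G d rk f := by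
    intro v hv
    rw [Finset.mem_sdiff, hτ, Finset.mem_sdiff] at hv
    by_contra h'
    exact hv.2 ⟨hv.1, h'⟩
  obtain ⟨c, hc⟩ := exists_gen hF
  have hkey : ∀ f' : Finset V, G.IsNClique d f' → ∀ v ∈ f',
      (¬ co p f' c v < 0 ↔ 0 < co p f' c v) := fun f' hf' v hv => by
    rw [not_lt]
    exact ⟨fun h => lt_of_le_of_ne h (co_ne hF hf' hc hv).symm, le_of_lt⟩
  have e1 := count_eq (G := G) (d := d) (τ := τ) (fun f => Rs G d rk f) (fun f _ => Rs_sub rk f)
    (fun σ hσ _ => Rs_part hF hr hσ)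
  have e2 := count_eq (G := G) (d := d) (τ := τ) (fun f => f.filter (fun v => co p f c v < 0))
    (fun f _ => Finset.filter_subset _ _)
    (fun σ hσ _ => by
      obtain ⟨f', ⟨h1, h2, h3⟩, h4⟩ := part hF hc hσ
      refine ⟨f', ⟨h1, h2, ?_⟩, ?_⟩
      · intro v hv
        rw [Finset.mem_filter] at hv
        by_contra hvσ
        exact absurd (h3 v hv.1 hvσ) (not_lt.2 hv.2.le)
      · rintro y ⟨hy1, hy2, hy3⟩
        refine h4 y ⟨hy1, hy2, fun v hv hvσ => ?_⟩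
        rw [← hkey y hy1 v hv]
        intro hlt
        exact hvσ (hy3 (Finset.mem_filter.2 ⟨hv, hlt⟩)))
  have e3 : (univ.filter (fun f : Finset V =>
      (G.IsNClique d f ∧ τ ⊆ f) ∧ f \ τ ⊆ f.filter (fun v => co p f c v < 0))).card = 1 := by
    obtain ⟨f', ⟨h1, h2, h3⟩, h4⟩ := part hF (gen_neg hc) hτc
    rw [Finset.card_eq_one]
    refine ⟨f', ?_⟩
    ext y
    simp only [Finset.mem_filter, Finset.mem_univ, true_and, Finset.mem_singleton]
    constructor
    · rintro ⟨⟨hy1, hy2⟩, hy3⟩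
      refine h4 y ⟨hy1, hy2, fun v hv hvτ => ?_⟩
      rw [co_neg hF hy1]
      have := hy3 (Finset.mem_sdiff.2 ⟨hv, hvτ⟩)
      rw [Finset.mem_filter] at this
      linarith [this.2]
    · rintro rfl
      refine ⟨⟨h1, h2⟩, fun v hv => ?_⟩
      rw [Finset.mem_sdiff] at hv
      have := h3 v hv.1 hv.2
      rw [co_neg hF h1] at this
      rw [Finset.mem_filter]
      exact ⟨hv.1, by linarith⟩
  rw [← e2, e3] at e1
  have e4 : (univ.filter (fun f : Finset V =>
      (G.IsNClique d f ∧ τ ⊆ f) ∧ f \ τ ⊆ Rs G d rk f)).card = 1 := by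
    have := mul_right_cancel₀ (pow_ne_zero _ (by norm_num)) e1
    exact_mod_cast this
  obtain ⟨a, ha⟩ := Finset.card_eq_one.1 e4
  have hfa : f = a := by
    rw [← Finset.mem_singleton, ← ha]
    exact Finset.mem_filter.2 ⟨Finset.mem_univ _, ⟨hf, hτf⟩, hf2⟩
  have hla : l = a := by
    rw [← Finset.mem_singleton, ← ha]
    exact Finset.mem_filter.2 ⟨Finset.mem_univ _, ⟨hl.1, hl.2⟩, hl2⟩
  have := hmax g ⟨hg, h⟩
  rw [hla, ← hfa] at this
  exact this

end Pool.Agent.Helper82.TI.Fan
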